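import Pool.Agent.H77.FL.Defs

/-!
# CleanB: making a character of low rank null (about 100 lines)

PROOF. `W1 = rk P l ⊓ W`; `¬ High` says `finrank W < finrank W1 + R`, i.e.
`finrank W + 1 ≤ finrank W1 + R`. On `W1` the map
`L u = l (P.g (P.t + u) + P.g P.t)` is additive: for `u, v ∈ W1`
`P.g (P.t + u + v) = P.g (P.t + u) + P.g v + P.g 0 + P.b (P.t + u) v` and
`P.g (P.t + v) = P.g P.t + P.g v + P.g 0 + P.b P.t v`; the difference is `l (P.b u v) = 0` because
`u ∈ W ≤ P.X` and `v ∈ rk P l`. (`IsQM.shift`, `IsQM.map` and `IsQM.lin_on` on the type `W1` also give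
this.) So `L` is a linear map `W1 → ZMod 2`; let `W'` be the image of its kernel in `V`:
`finrank W1 ≤ finrank W' + 1` (see `ker_lin` and `lowrank` in QK/QLow). Hence
`finrank W ≤ finrank W' + R`.
`l ∈ nulS P W'`: for `x ∈ P.X`, `u ∈ W'`:
`P.g (P.t + x + u) + P.g (P.t + x) = P.g u + P.g 0 + P.b P.t u + P.b x u` and
`P.g (P.t + u) + P.g P.t = P.g u + P.g 0 + P.b P.t u`, so
`l (P.g (P.t + x + u)) + l (P.g (P.t + x)) = L u + l (P.b x u) = 0 + 0`.
Finally `nulS P W ≤ nulS P W'` (`nulS_mono`) is strict because of `l`, so the dimension increases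
(`Submodule.finrank_lt_finrank_of_lt`), and it is at most `finrank (Dual P.Y)`
(`Submodule.finrank_le`): `defi P W' + 1 ≤ defi P W`.
-/

set_option autoImplicit false

open Finset Function Module
open scoped BigOperators
open Pool.Agent.H77.KM
open Pool.Agent.H22.QK
open Pool.Agent.H22.QF

namespace Pool.Agent.H77.FL

variable {V : Type} [AddCommGroup V] [Module (ZMod 2) V] [Fintype V]

theorem clean_b (P : Pc V) (W : Submodule (ZMod 2) V) (hW : W ≤ P.X) (l : Dual (ZMod 2) P.Y)
    (hn : l ∉ nulS P W) {R : ℕ} (hh : ¬ High P l W R) :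
    ∃ W' : Submodule (ZMod 2) V, W' ≤ W ∧ finrank (ZMod 2) W ≤ finrank (ZMod 2) W' + R ∧
      defi P W' + 1 ≤ defi P W := by
  have h1 : IsQM (fun w : (rk P l ⊓ W : Submodule (ZMod 2) V) =>
      l (P.g (P.t + (rk P l ⊓ W : Submodule (ZMod 2) V).subtype w)))
      ((pb P.b (rk P l ⊓ W : Submodule (ZMod 2) V).subtype).compr₂ l) :=
    (P.qm.pull (rk P l ⊓ W : Submodule (ZMod 2) V).subtype P.t).map l
  obtain ⟨L, hL⟩ := h1.lin_on (fun x y => by
    have hy : (y : V) ∈ rk P l := y.2.1
    have hx : (x : V) ∈ P.X := hW x.2.2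
    exact hy x hx)
  have hL' : ∀ x : (rk P l ⊓ W : Submodule (ZMod 2) V), L x = 0 →
      l (P.g (P.t + (x : V))) = l (P.g P.t) := by
    intro x hx
    have h := hL x
    rw [hx, zero_add, map_zero, add_zero] at h
    exact h
  have hle : (LinearMap.ker L).map (rk P l ⊓ W : Submodule (ZMod 2) V).subtype ≤ W := by
    intro u hu
    obtain ⟨u', -, rfl⟩ := Submodule.mem_map.1 hu
    exact u'.2.2
  refine ⟨(LinearMap.ker L).map (rk P l ⊓ W : Submodule (ZMod 2) V).subtype, hle, ?_, ?_⟩
  · have h2 : finrank (ZMod 2) ((LinearMap.ker L).map (rk P l ⊓ W : Submodule (ZMod 2) V).subtype)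
        = finrank (ZMod 2) (LinearMap.ker L) :=
      (LinearEquiv.finrank_eq (Submodule.equivMapOfInjective
        (rk P l ⊓ W : Submodule (ZMod 2) V).subtype
        (rk P l ⊓ W : Submodule (ZMod 2) V).injective_subtype (LinearMap.ker L))).symm
    have h3 := LinearMap.finrank_range_add_finrank_ker L
    have h4 : finrank (ZMod 2) (LinearMap.range L) ≤ 1 := by
      have := Submodule.finrank_le (LinearMap.range L)
      rwa [finrank_self] at this
    unfold High at hh
    omega
  · have hl : l ∈ nulS P ((LinearMap.ker L).map (rk P l ⊓ W : Submodule (ZMod 2) V).subtype) := by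
      intro x hx u hu
      obtain ⟨u', hu', rfl⟩ := Submodule.mem_map.1 hu
      have e1 := hL' u' (LinearMap.mem_ker.1 hu')
      have e2 : l (P.b x (u' : V)) = 0 := u'.2.1 x hx
      have e3 := congrArg l (P.qm (P.t + x) (u' : V))
      have e4 := congrArg l (P.qm P.t (u' : V))
      simp only [map_add, LinearMap.add_apply] at e3 e4
      have e5 : l (P.g P.t) + l (P.g P.t) = 0 := ZModModule.add_self _
      show l (P.g (P.t + x + (u' : V))) = l (P.g (P.t + x))
      rw [e3, e2]
      rw [e1] at e4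
      linear_combination -e4
    have hlt : nulS P W <
        nulS P ((LinearMap.ker L).map (rk P l ⊓ W : Submodule (ZMod 2) V).subtype) := by
      refine lt_of_le_of_ne (nulS_mono hle) ?_
      intro h
      rw [← h] at hl
      exact hn hl
    have h5 := Submodule.finrank_lt_finrank_of_lt hlt
    have h6 := Submodule.finrank_le
      (nulS P ((LinearMap.ker L).map (rk P l ⊓ W : Submodule (ZMod 2) V).subtype))
    unfold defi
    omega

end Pool.Agent.H77.FL
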