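import Pool.Agent.H77.FL.CleanA
import Pool.Agent.H77.FL.CleanB

/-!
# CleanAll: cleaning the base (about 130 lines)

PROOF. Strong induction on `pot T B` (`induction' h : pot T B using Nat.strong_induction_on`
generalizing `B`). If `Reg (pb B.b B.X.subtype) σ'` and all `Pair p.2 B P` hold, `B` itself is clean.
KEY (`pre_of`): if `B'.t = 0`, `B'.g 0 = 0`, `B'.X ≤ B.X`, `finrank B.X ≤ finrank B'.X + K`,
`finrank B'.Y ≤ finrank B.Y`, `∀ u ∈ B'.X, B'.g u = 0 → B.g u = 0` and
`pot T B' + 1 ≤ pot T B`, then `Pre .. T B'`: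
`Sub p.2 B'`: `0 ∈ p.2.X`; `B'.X ≤ B.X ≤ p.2.X`; if `B'.g (0 + x) = 0` then `B.g (0 + x) = 0`, so
`Sub p.2 B` (where `B.t = 0`) gives `p.2.g (0 + x) = p.2.g 0`. `dimX`:
`K * pot T B' + K ≤ K * pot T B`.
CASE 1: `¬ Reg ..`: `clean_a` gives `B'`; `2 σ' ≤ K`; `finrank B'.Y + 1 ≤ finrank B.Y` and
`defi p.2 B'.X ≤ defi p.2 B.X` (`defi_mono`), so `pot T B' + 1 ≤ pot T B` (`List.sum_le_sum` /
induction on the list).
CASE 2: some `p ∈ T` and `l` with `¬ Null p.2 B l`, `¬ High p.2 l B.X P`. As `B.t = 0`, `¬ Null` gives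
`l ∉ nulS p.2 B.X` (`zero_add`). `clean_b` with `W = B.X` (`Sub p.2 B` gives `B.X ≤ p.2.X`) gives `W'`;
`B' = {B with X := W'}` (or the explicit structure with `t := 0`); `P ≤ K`; the potential drops by at
least one since the summand of `p` drops (`List.sum_lt_sum` / induction on the list).
Then the induction hypothesis for `B'`.
-/

set_option autoImplicit false

open Finset Function Module
open scoped BigOperators
open Pool.Agent.H77.KM
open Pool.Agent.H22.QK
open Pool.Agent.H22.QF

namespace Pool.Agent.H77.FL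

variable {V : Type} [AddCommGroup V] [Module (ZMod 2) V] [Fintype V]

variable {I : Type}

theorem pre_of {A : I → V → ℝ} {d D ρ σ R K C : ℕ} {T : List (I × Pc V)} {B B' : Pc V}
    (hP : Pre A d D ρ σ R K C T B) (ht : B'.t = 0) (hg : B'.g 0 = 0) (hX : B'.X ≤ B.X)
    (hfX : finrank (ZMod 2) B.X ≤ finrank (ZMod 2) B'.X + K)
    (hfY : finrank (ZMod 2) B'.Y ≤ finrank (ZMod 2) B.Y)
    (hd : ∀ u ∈ B'.X, B'.g u = 0 → B.g u = 0) (hpot : pot T B' + 1 ≤ pot T B) :
    Pre A d D ρ σ R K C T B' := by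
  refine ⟨ht, hg, ?_, hP.lev, hP.pw, hfY.trans hP.dimY, ?_⟩
  · intro p hp
    obtain ⟨h1, h2, h3⟩ := hP.sub p hp
    refine ⟨?_, hX.trans h2, ?_⟩
    · rw [ht]
      exact zero_mem _
    · intro x hx h
      rw [ht, zero_add] at h ⊢
      have h4 := h3 x (hX hx)
      rw [hP.t0, zero_add] at h4
      exact h4 (hd x hx h)
  · have h1 := hP.dimX
    have h2 : K * pot T B' + K ≤ K * pot T B := by
      calc K * pot T B' + K = K * (pot T B' + 1) := by ring
        _ ≤ K * pot T B := Nat.mul_le_mul_left _ hpot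
    omega

private lemma sum_le_aux {α : Type*} (f g : α → ℕ) :
    ∀ T : List α, (∀ p ∈ T, f p ≤ g p) → (T.map f).sum ≤ (T.map g).sum := by
  intro T
  induction T with
  | nil => intro _; simp
  | cons a T ih =>
    intro h
    have h1 := h a (List.mem_cons_self)
    have h2 := ih (fun p hp => h p (List.mem_cons_of_mem _ hp))
    simp only [List.map_cons, List.sum_cons]
    omega

private lemma sum_lt_aux {α : Type*} (f g : α → ℕ) :
    ∀ T : List α, (∀ p ∈ T, f p ≤ g p) → ∀ q ∈ T, f q + 1 ≤ g q →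
      (T.map f).sum + 1 ≤ (T.map g).sum := by
  intro T
  induction T with
  | nil =>
    intro _ q hq
    simp at hq
  | cons a T ih =>
    intro h q hq hlt
    have h1 := h a (List.mem_cons_self)
    have h2 : ∀ p ∈ T, f p ≤ g p := fun p hp => h p (List.mem_cons_of_mem _ hp)
    simp only [List.map_cons, List.sum_cons]
    rcases List.mem_cons.1 hq with rfl | hq'
    · have h3 := sum_le_aux f g T h2
      omega
    · have h3 := ih h2 q hq' hlt
      omega

theorem clean_all {A : I → V → ℝ} {d D ρ σ R K C σ' P : ℕ} {T : List (I × Pc V)} {B : Pc V}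
    (hP : Pre A d D ρ σ R K C T B) (hK : 2 * σ' + P ≤ K) :
    ∃ B' : Pc V, Clean A d D ρ σ R K C σ' P T B' := by
  obtain ⟨n, hn⟩ : ∃ n, pot T B = n := ⟨_, rfl⟩
  induction n using Nat.strong_induction_on generalizing B with
  | _ n ih =>
    by_cases hr : Reg (pb B.b B.X.subtype) σ'
    · by_cases hp : ∀ p ∈ T, Pair p.2 B P
      · exact ⟨B, hP, hr, hp⟩
      · push Not at hp
        obtain ⟨p, hpT, hp⟩ := hp
        unfold Pair at hp
        push Not at hp
        obtain ⟨l, hl1, hl2⟩ := hp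
        have hn' : l ∉ nulS p.2 B.X := by
          intro h
          apply hl1
          intro x hx w hw
          rw [hP.t0, zero_add]
          exact h x hx w hw
        obtain ⟨W', hW1, hW2, hW3⟩ := clean_b p.2 B.X (hP.sub p hpT).2.1 l hn' hl2
        have hpot : pot T ⟨B.t, W', B.Y, B.g, B.b, B.qm⟩ + 1 ≤ pot T B := by
          have h1 := sum_lt_aux (fun q : I × Pc V => defi q.2 W')
            (fun q : I × Pc V => defi q.2 B.X) T (fun q _ => defi_mono hW1) p hpT hW3
          unfold pot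
          show finrank (ZMod 2) B.Y + (T.map (fun q : I × Pc V => defi q.2 W')).sum + 1 ≤
            finrank (ZMod 2) B.Y + (T.map (fun q : I × Pc V => defi q.2 B.X)).sum
          omega
        have hP' : Pre A d D ρ σ R K C T ⟨B.t, W', B.Y, B.g, B.b, B.qm⟩ :=
          pre_of hP hP.t0 hP.g0 hW1 (by
            show finrank (ZMod 2) B.X ≤ finrank (ZMod 2) W' + K
            omega) le_rfl (fun u _ h => h) hpot
        exact ih _ (by omega) hP' rfl
    · obtain ⟨B', h1, h2, h3, h4, h5, h6⟩ := clean_a B hP.g0 hr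
      have hpot : pot T B' + 1 ≤ pot T B := by
        have h7 := sum_le_aux (fun q : I × Pc V => defi q.2 B'.X)
          (fun q : I × Pc V => defi q.2 B.X) T (fun q _ => defi_mono h3)
        unfold pot
        omega
      have hP' : Pre A d D ρ σ R K C T B' :=
        pre_of hP h1 h2 h3 (by omega) (by omega) h6 hpot
      exact ih _ (by omega) hP' rfl

end Pool.Agent.H77.FL
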