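import Pool.Agent.H77.FL.NewLev

/-!
# Step: one more level (about 130 lines)

PROOF. If `QDense` fails for some `i`, `new_lev` for `A i` gives `N`. Take `q = (i, N)`,
`B' = N.hom` (`t = 0`, `X = N.X`, `Y = N.Y`, `g v = N.g v + N.g 0`).
* `B'.g 0 = 0` (`ZModModule.add_self`).
* `B'.g u = 0` implies `N.g u = N.g 0`, hence `B.g u = 0` (last property of `new_lev`).
* `Sub N B'`: `0 ∈ N.X`; `N.X ≤ N.X`; `B'.g (0 + x) = 0` gives `N.g (0 + x) = N.g 0`.
* `Sub p.2 B'` for `p ∈ T`: `0 ∈ p.2.X`, `N.X ≤ B.X ≤ p.2.X`, and `B'.g (0+x) = 0` gives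
  `B.g (0 + x) = 0` with `x ∈ B.X`, so `Sub p.2 B` (with `B.t = 0`) applies.
* `Lev (A i) d D σ N`: `reg`, `sp` from `new_lev`; `finrank N.Y ≤ T.length * ρ + ρ ≤ D` (`hT`);
  `finrank N.X ≥ finrank B.X - κ`, and `finrank V ≤ finrank B.X + C` (`Pre.dimX`), so with `hX`
  `D + d + 4 ≤ finrank N.X`.
* `pw` for the new head `q`: for `p ∈ T`, `Sub p.2 N`: `N.t ∈ B.X ≤ p.2.X`, `N.X ≤ p.2.X`; for
  `x ∈ N.X`, `N.g (N.t + x) = 0` gives `B.g (N.t + x) = 0`, `N.t + x ∈ B.X`, so `Sub p.2 B` (with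
  `B.t = 0`) gives `p.2.g (N.t + x) = p.2.g 0`. `Pair p.2 N (2 R)` from `Pair p.2 B (κ + 2 R)`: null
  for `B` implies null for `N` because `N.t + w ∈ B.X`; `High p.2 l B.X (κ + 2 R)` implies
  `High p.2 l N.X (2 R)` because `rk ⊓ N.X ≤ rk ⊓ B.X` (`Submodule.finrank_mono`) and
  `finrank B.X ≤ finrank N.X + κ`.
* `dimY`: `finrank N.Y ≤ (T.length + 1) * ρ`.
* `dimX`: `pot (q :: T) B' = finrank N.Y + (defi N N.X + ∑ defi p.2 N.X)`;
  `finrank N.Y ≤ finrank B.Y + ρ`, `defi N N.X ≤ finrank (Dual N.Y) = finrank N.Y ≤ D`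
  (`Subspace.dual_finrank_eq`), `defi p.2 N.X ≤ defi p.2 B.X` (`defi_mono`). So
  `pot (q :: T) B' ≤ pot T B + ρ + D` and
  `finrank V + K pot' ≤ finrank B.X + C + K (ρ + D) ≤ finrank N.X + (C + κ + K (ρ + D))`.
-/

set_option autoImplicit false

open Finset Function Module
open scoped BigOperators
open Pool.Agent.H77.KM
open Pool.Agent.H22.QK
open Pool.Agent.H22.QF

namespace Pool.Agent.H77.FL

variable {V : Type} [AddCommGroup V] [Module (ZMod 2) V] [Fintype V]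

variable {I : Type}

private lemma eq_of_add_zero {Y : Type} [AddCommGroup Y] [Module (ZMod 2) Y] {a b : Y}
    (h : a + b = 0) : a = b := by
  have h1 : a + b + b = b := by rw [h, zero_add]
  rwa [add_assoc, ZModModule.add_self, add_zero] at h1

omit [Fintype V] in
private lemma pot_step (T : List (I × Pc V)) (B N : Pc V) (i : I) {ρ D : ℕ} (hNX : N.X ≤ B.X)
    (hY : finrank (ZMod 2) N.Y ≤ finrank (ZMod 2) B.Y + ρ) (hD : finrank (ZMod 2) N.Y ≤ D) :
    pot ((i, N) :: T) N.hom ≤ pot T B + (ρ + D) := by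
  have h1 : (T.map (fun p => defi p.2 N.X)).sum ≤ (T.map (fun p => defi p.2 B.X)).sum :=
    List.sum_le_sum fun p _ => defi_mono hNX
  have h2 : defi N N.X ≤ D := by
    unfold defi
    have h3 : finrank (ZMod 2) (Dual (ZMod 2) N.Y) = finrank (ZMod 2) N.Y :=
      Subspace.dual_finrank_eq
    omega
  have h4 : pot ((i, N) :: T) N.hom = finrank (ZMod 2) N.Y +
      (defi N N.X + (T.map (fun p => defi p.2 N.X)).sum) := by
    unfold pot
    rw [List.map_cons, List.sum_cons]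
    rfl
  have h5 : pot T B = finrank (ZMod 2) B.Y + (T.map (fun p => defi p.2 B.X)).sum := rfl
  omega

theorem step {A : I → V → ℝ} {d D ρ σ R K C σ' κ : ℕ} {T : List (I × Pc V)} {B : Pc V}
    (hC : Clean A d D ρ σ R K C σ' (κ + 2 * R) T B) (hT : (T.length + 1) * ρ ≤ D)
    (hX : D + d + 4 + (C + κ) ≤ finrank (ZMod 2) V) :
    (∀ i, QDense (fun w : B.X => A i w) (fun w : B.X => B.g w) κ ρ σ (d + 4)) ∨
    ∃ (q : I × Pc V) (B' : Pc V), Pre A d D ρ σ R K (C + κ + K * (ρ + D)) (q :: T) B' := by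
  by_cases hq : ∀ i, QDense (fun w : B.X => A i w) (fun w : B.X => B.g w) κ ρ σ (d + 4)
  · exact Or.inl hq
  right
  rw [not_forall] at hq
  obtain ⟨i, hi⟩ := hq
  obtain ⟨N, hNt, hNX, hfX, hfY, hreg, hsp, h1, h2⟩ := new_lev B hC.pre.g0 (A i) hi
  have hpre := hC.pre
  have hsub : ∀ p ∈ T, B.X ≤ p.2.X ∧ ∀ x ∈ B.X, B.g x = 0 → p.2.g x = p.2.g 0 := by
    intro p hp
    obtain ⟨_, hb, hc⟩ := hpre.sub p hp
    refine ⟨hb, fun x hx hx0 => ?_⟩
    have h3 := hc x hx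
    rw [hpre.t0, zero_add] at h3
    exact h3 hx0
  have hY1 := hpre.dimY
  have hX1 := hpre.dimX
  have hNY : finrank (ZMod 2) N.Y ≤ (T.length + 1) * ρ := by
    rw [Nat.add_mul, Nat.one_mul]
    omega
  have hND : finrank (ZMod 2) N.Y ≤ D := hNY.trans hT
  have hNdim : D + d + 4 ≤ finrank (ZMod 2) N.X := by omega
  refine ⟨(i, N), N.hom, rfl, ?_, ?_, ?_, ?_, ?_, ?_⟩
  · change N.g 0 + N.g 0 = 0
    exact ZModModule.add_self _
  · intro p hp
    rcases List.mem_cons.1 hp with rfl | hp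
    · refine ⟨N.X.zero_mem, le_refl N.X, fun x _ hx0 => ?_⟩
      exact eq_of_add_zero hx0
    · obtain ⟨hb, hc⟩ := hsub p hp
      refine ⟨p.2.X.zero_mem, hNX.trans hb, fun x hx hx0 => ?_⟩
      have h3 : N.g ((0 : V) + x) = N.g 0 := eq_of_add_zero hx0
      have h4 := h2 _ h3
      rw [zero_add] at h4
      change p.2.g ((0 : V) + x) = p.2.g 0
      rw [zero_add]
      exact hc x (hNX hx) h4
  · intro p hp
    rcases List.mem_cons.1 hp with rfl | hp
    · exact ⟨hreg, hsp, hND, hNdim⟩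
    · exact hpre.lev p hp
  · refine List.pairwise_cons.2 ⟨fun p hp => ?_, hpre.pw⟩
    obtain ⟨hb, hc⟩ := hsub p hp
    refine ⟨⟨hb hNt, hNX.trans hb, fun x hx hx0 => ?_⟩, fun l => ?_⟩
    · exact hc _ (B.X.add_mem hNt (hNX hx)) (h1 _ hx0)
    · rcases hC.pair p hp l with hn | hh
      · left
        intro x hx w hw
        have h3 := hn x hx (N.t + w) (B.X.add_mem hNt (hNX hw))
        rw [hpre.t0, zero_add] at h3
        exact h3
      · right
        have h3 : finrank (ZMod 2) (rk p.2 l ⊓ N.X : Submodule (ZMod 2) V) ≤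
            finrank (ZMod 2) (rk p.2 l ⊓ B.X : Submodule (ZMod 2) V) :=
          Submodule.finrank_mono (inf_le_inf_left _ hNX)
        have h4 : finrank (ZMod 2) (rk p.2 l ⊓ B.X : Submodule (ZMod 2) V) + (κ + 2 * R) ≤
          finrank (ZMod 2) B.X := hh
        change finrank (ZMod 2) (rk p.2 l ⊓ N.X : Submodule (ZMod 2) V) + 2 * R ≤
          finrank (ZMod 2) N.X
        omega
  · exact hNY
  · have h3 := pot_step T B N i hNX hfY hND
    have h4 := Nat.mul_le_mul_left K h3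
    rw [Nat.mul_add] at h4
    change finrank (ZMod 2) V + K * pot ((i, N) :: T) N.hom ≤
      finrank (ZMod 2) N.X + (C + κ + K * (ρ + D))
    omega

end Pool.Agent.H77.FL
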