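import Pool.Agent.H77.FL.Contra
import Pool.Agent.H77.FL.CleanAll
import Pool.Agent.H77.FL.Step

/-!
# Main: the flag lemma `base_exists`

PROOF. `D = c d ρ`, `R = flS d c ρ`, `K = flK`, `C m = flC m`. Claim: for all `m ≤ c d` either some
clean tower `(T, B)` of height at most `c d` has `QDense` for all `i`, or there is a state
`Pre .. (C m) T B` with `T.length = m`. Start: `T = []`, base `V` with target `PUnit`. Step:
`clean_all`, `step`. For `m = c d` a `Pre`-state contradicts `contra` and the hypothesis (if `I` is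
empty, the first clean state has `QDense` trivially).
-/

set_option autoImplicit false

open Finset Function Module
open scoped BigOperators
open Pool.Agent.H77.KM
open Pool.Agent.H22.QK
open Pool.Agent.H22.QF

namespace Pool.Agent.H77.FL

variable {V : Type} [AddCommGroup V] [Module (ZMod 2) V] [Fintype V]

variable {I : Type}

/-- The output of the flag lemma. -/
def GoodB (A : I → V → ℝ) (c d κ ρ σ σ' : ℕ) : Prop :=
  ∃ (W Y : Type) (_ : AddCommGroup W) (_ : Module (ZMod 2) W) (_ : Fintype W)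
    (_ : AddCommGroup Y) (_ : Module (ZMod 2) Y) (_ : Fintype Y) (f : W →ₗ[ZMod 2] V)
    (G : W → Y) (b : W →ₗ[ZMod 2] W →ₗ[ZMod 2] Y), Injective f ∧
    finrank (ZMod 2) V ≤ finrank (ZMod 2) W + flD d c κ ρ σ' ∧
    finrank (ZMod 2) Y ≤ c * d * ρ ∧ IsQM G b ∧ G 0 = 0 ∧ Reg b σ' ∧
    ∀ i, QDense (fun w => A i (f w)) G κ ρ σ (d + 4)

private theorem flC_succ (d c κ ρ σ' m : ℕ) :
    flC d c κ ρ σ' (m + 1)
      = flC d c κ ρ σ' m + κ + flK d c κ ρ σ' * (ρ + c * d * ρ) := by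
  unfold flC
  ring

private theorem flC_mono (d c κ ρ σ' : ℕ) {m n : ℕ} (h : m ≤ n) :
    flC d c κ ρ σ' m ≤ flC d c κ ρ σ' n := by
  unfold flC
  gcongr

private theorem good_of {A : I → V → ℝ} {c d κ ρ σ σ' m : ℕ} (hm : m ≤ c * d)
    {T : List (I × Pc V)} {B : Pc V}
    (hC : Clean A d (c * d * ρ) ρ σ (flS d c ρ) (flK d c κ ρ σ') (flC d c κ ρ σ' m) σ'
      (κ + 2 * flS d c ρ) T B) (hT : T.length = m)
    (hQ : ∀ i, QDense (fun w : B.X => A i w) (fun w : B.X => B.g w) κ ρ σ (d + 4)) :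
    GoodB A c d κ ρ σ σ' := by
  refine ⟨B.X, B.Y, inferInstance, inferInstance, inferInstance, inferInstance, inferInstance,
    inferInstance, B.X.subtype, fun w => B.g w, pb B.b B.X.subtype,
    B.X.injective_subtype, ?_, ?_, ?_, ?_, hC.reg, hQ⟩
  · have h1 := hC.pre.dimX
    have h2 := flC_mono d c κ ρ σ' hm
    have h3 : flD d c κ ρ σ' = flC d c κ ρ σ' (c * d) + (c * d * ρ + d + 4) := rfl
    rw [h3]
    omega
  · refine hC.pre.dimY.trans ?_
    rw [hT]
    exact Nat.mul_le_mul_right _ hm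
  · have h := B.qm.pull B.X.subtype 0
    simpa using h
  · exact hC.pre.g0

private theorem pre_zero (A : I → V → ℝ) (c d κ ρ σ σ' : ℕ) :
    ∃ B : Pc V, Pre A d (c * d * ρ) ρ σ (flS d c ρ) (flK d c κ ρ σ') (flC d c κ ρ σ' 0)
      ([] : List (I × Pc V)) B := by
  let B : Pc V :=
    { t := 0
      X := ⊤
      Y := PUnit
      g := fun _ => PUnit.unit
      b := 0
      qm := fun _ _ => rfl }
  have h1 : finrank (ZMod 2) B.Y = 0 := finrank_zero_of_subsingleton (R := ZMod 2) (M := PUnit)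
  have h2 : finrank (ZMod 2) B.X = finrank (ZMod 2) V := finrank_top (ZMod 2) V
  refine ⟨B, ⟨rfl, rfl, ?_, ?_, ?_, ?_, ?_⟩⟩
  · intro p hp
    exact absurd hp (List.not_mem_nil)
  · intro p hp
    exact absurd hp (List.not_mem_nil)
  · exact List.Pairwise.nil
  · rw [h1]
    exact Nat.zero_le _
  · have h3 : pot ([] : List (I × Pc V)) B = 0 := by
      unfold pot
      rw [h1]
      rfl
    rw [h3, h2, Nat.mul_zero]
    exact Nat.le_add_right _ _

private theorem tower {A : I → V → ℝ} {c d κ ρ σ σ' : ℕ}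
    (hn : flD d c κ ρ σ' ≤ finrank (ZMod 2) V) (m : ℕ) (hm : m ≤ c * d) :
    GoodB A c d κ ρ σ σ' ∨ ∃ (T : List (I × Pc V)) (B : Pc V),
      Pre A d (c * d * ρ) ρ σ (flS d c ρ) (flK d c κ ρ σ') (flC d c κ ρ σ' m) T B ∧
      T.length = m := by
  induction m with
  | zero =>
    obtain ⟨B, hB⟩ := pre_zero A c d κ ρ σ σ'
    exact Or.inr ⟨[], B, hB, rfl⟩
  | succ m ih =>
    rcases ih (by omega) with h | ⟨T, B, hP, hT⟩
    · exact Or.inl h
    · obtain ⟨B1, hC⟩ := clean_all (σ' := σ') (P := κ + 2 * flS d c ρ) hP (le_refl _)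
      have h1 : (T.length + 1) * ρ ≤ c * d * ρ := by
        rw [hT]
        exact Nat.mul_le_mul_right _ hm
      have h2 : c * d * ρ + d + 4 + (flC d c κ ρ σ' m + κ) ≤ finrank (ZMod 2) V := by
        refine le_trans ?_ hn
        have h3 : flD d c κ ρ σ' = flC d c κ ρ σ' (c * d) + (c * d * ρ + d + 4) := rfl
        have h4 := flC_mono d c κ ρ σ' hm
        rw [flC_succ] at h4
        rw [h3]
        omega
      rcases step hC h1 h2 with h | ⟨q, B', hP'⟩
      · exact Or.inl (good_of (by omega) hC hT h)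
      · refine Or.inr ⟨q :: T, B', ?_, ?_⟩
        · rw [flC_succ]
          exact hP'
        · rw [List.length_cons, hT]

theorem base_exists [Fintype I] (A : I → V → ℝ) (hA : ∀ i v, A i v = 0 ∨ A i v = 1)
    (hA0 : ∀ i, A i 0 = 0) {c d κ ρ σ σ' : ℕ} (hc : Fintype.card I ≤ c) (hd : 1 ≤ d)
    (hU : ∀ i, ∀ U : Submodule (ZMod 2) V, finrank (ZMod 2) U = d → ∃ u ∈ U, A i u = 1)
    (hσ : flS d c ρ ≤ σ) (hn : flD d c κ ρ σ' ≤ finrank (ZMod 2) V) :
    GoodB A c d κ ρ σ σ' := by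
  rcases isEmpty_or_nonempty I with hI | hI
  · obtain ⟨B, hB⟩ := pre_zero A c d κ ρ σ σ'
    obtain ⟨B1, hC⟩ := clean_all (σ' := σ') (P := κ + 2 * flS d c ρ) hB (le_refl _)
    exact good_of (Nat.zero_le _) hC rfl (fun i => (hI.false i).elim)
  · rcases tower (A := A) (σ := σ) hn (c * d) le_rfl with h | ⟨T, B, hP, hT⟩
    · exact h
    · obtain ⟨i, U, hUd, hUA⟩ := contra hA hA0 hc hd (D := c * d * ρ) (R := flS d c ρ)
        (by unfold flS; exact le_rfl) hσ T hP.lev hP.pw hT.ge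
      obtain ⟨u, hu, hu1⟩ := hU i U hUd
      rw [hUA u hu] at hu1
      exact absurd hu1 (by norm_num)

end Pool.Agent.H77.FL
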