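import Pool.Agent.H22.QF.QDefs
import Pool.Agent.H22.QK.QLow

/-!
# Flag lemma (part (I) of the project QF): definitions

All quadratic maps are defined on the whole space `V`.
* `Pc V`: a quadratic piece: `t : V`, a subspace `X`, a target `Y`, a quadratic map `g : V → Y`
  with polarisation `b`. It stands for the set `{t + x : x ∈ X, g (t + x) = 0}`.
* `rk P l`: the subspace of all `u` with `l (b x u) = 0` for all `x ∈ X`.
* `High P l W R`: the form `l ∘ b` has rank at least `R` on `X × W`.
* `Null P Q l`: `l ∘ g` is unchanged when an element of `Q.t + Q.X` is added to an element of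
  `P.t + P.X`.
* `Sub P Q`: the newer piece `Q` lies in the subspace `P.X` and dominates the homogeneous part of
  `P`: `Q.g = 0` implies `P.g = P.g 0` on `Q.t + Q.X`.
* `Pair P Q R`: every character of `P.Y` is null or of rank at least `R`.
* `Sparse A P s`: the normalised density of `A` on `P` is smaller than `(1/2)^s`.
* `nulS P W`: the subspace of the null characters for all `u ∈ W`; `defi P W` its codimension.
* `pot T B`: the potential of the tower `T` with base `B` (newest level first).
* `Pre`, `Clean`: the states of the construction.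
* `Om Q`, `yv Q w`, `IsFl Q y`: samples, vectors and equations of a flag; `ph` its characters.
* `flS`, `flD`: the numbers.
-/

set_option autoImplicit false

open Finset Function Module
open scoped BigOperators
open Pool.Agent.H77.KM
open Pool.Agent.H22.QK
open Pool.Agent.H22.QF

namespace Pool.Agent.H77.FL

/-- A quadratic piece. -/
structure Pc (V : Type) [AddCommGroup V] [Module (ZMod 2) V] : Type 1 where
  /-- the translation -/
  t : V
  /-- the subspace -/
  X : Submodule (ZMod 2) V
  /-- the target -/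
  Y : Type
  [acg : AddCommGroup Y]
  [mod : Module (ZMod 2) Y]
  [fin : Fintype Y]
  /-- the quadratic map -/
  g : V → Y
  /-- its polarisation -/
  b : V →ₗ[ZMod 2] V →ₗ[ZMod 2] Y
  qm : IsQM g b

attribute [instance] Pc.acg Pc.mod Pc.fin

/-- The homogeneous part of a piece, as a new base. -/
def Pc.hom {V : Type} [AddCommGroup V] [Module (ZMod 2) V] (N : Pc V) : Pc V where
  t := 0
  X := N.X
  Y := N.Y
  g := fun v => N.g v + N.g 0
  b := N.b
  qm := by
    have h := N.qm.addAffine 0 (N.g 0)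
    simpa using h

section

variable {V : Type} [AddCommGroup V] [Module (ZMod 2) V]

/-- The subspace of all `u` with `l (b x u) = 0` for all `x ∈ X`. -/
def rk (P : Pc V) (l : Dual (ZMod 2) P.Y) : Submodule (ZMod 2) V where
  carrier := {u | ∀ x ∈ P.X, l (P.b x u) = 0}
  add_mem' := by
    intro u v hu hv x hx
    rw [map_add, map_add, hu x hx, hv x hx, add_zero]
  zero_mem' := by
    intro x _
    rw [map_zero, map_zero]
  smul_mem' := by
    intro c u hu x hx
    rw [map_smul, map_smul, hu x hx, smul_zero]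

lemma mem_rk {P : Pc V} {l : Dual (ZMod 2) P.Y} {u : V} :
    u ∈ rk P l ↔ ∀ x ∈ P.X, l (P.b x u) = 0 := Iff.rfl

/-- The form `l ∘ b` has rank at least `R` on `X × W`. -/
def High (P : Pc V) (l : Dual (ZMod 2) P.Y) (W : Submodule (ZMod 2) V) (R : ℕ) : Prop :=
  finrank (ZMod 2) (rk P l ⊓ W : Submodule (ZMod 2) V) + R ≤ finrank (ZMod 2) W

/-- `l` is null for the pair `P`, `Q`. -/
def Null (P Q : Pc V) (l : Dual (ZMod 2) P.Y) : Prop :=
  ∀ x ∈ P.X, ∀ w ∈ Q.X, l (P.g (P.t + x + (Q.t + w))) = l (P.g (P.t + x))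

/-- The newer piece `Q` lies in `P.X` and dominates `P`. -/
def Sub (P Q : Pc V) : Prop :=
  Q.t ∈ P.X ∧ Q.X ≤ P.X ∧ ∀ x ∈ Q.X, Q.g (Q.t + x) = 0 → P.g (Q.t + x) = P.g 0

/-- Every character of `P.Y` is null or of rank at least `R`. -/
def Pair (P Q : Pc V) (R : ℕ) : Prop :=
  ∀ l : Dual (ZMod 2) P.Y, Null P Q l ∨ High P l Q.X R

/-- The space of the null characters. -/
def nulS (P : Pc V) (W : Submodule (ZMod 2) V) : Submodule (ZMod 2) (Dual (ZMod 2) P.Y) where
  carrier := {l | ∀ x ∈ P.X, ∀ u ∈ W, l (P.g (P.t + x + u)) = l (P.g (P.t + x))}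
  add_mem' := by
    intro l m hl hm x hx u hu
    rw [LinearMap.add_apply, LinearMap.add_apply, hl x hx u hu, hm x hx u hu]
  zero_mem' := by
    intro x _ u _
    rfl
  smul_mem' := by
    intro c l hl x hx u hu
    rw [LinearMap.smul_apply, LinearMap.smul_apply, hl x hx u hu]

lemma mem_nulS {P : Pc V} {W : Submodule (ZMod 2) V} {l : Dual (ZMod 2) P.Y} :
    l ∈ nulS P W ↔ ∀ x ∈ P.X, ∀ u ∈ W, l (P.g (P.t + x + u)) = l (P.g (P.t + x)) := Iff.rfl

lemma nulS_mono {P : Pc V} {W W' : Submodule (ZMod 2) V} (h : W' ≤ W) : nulS P W ≤ nulS P W' :=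
  fun _ hl x hx u hu => hl x hx u (h hu)

/-- The codimension of the space of the null characters. -/
noncomputable def defi (P : Pc V) (W : Submodule (ZMod 2) V) : ℕ :=
  finrank (ZMod 2) (Dual (ZMod 2) P.Y) - finrank (ZMod 2) (nulS P W)

lemma defi_mono {P : Pc V} {W W' : Submodule (ZMod 2) V} (h : W' ≤ W) :
    defi P W' ≤ defi P W := by
  have h1 := Submodule.finrank_mono (nulS_mono (P := P) h)
  unfold defi
  omega

variable {I : Type}

/-- The potential of a tower `T` with base `B`. -/
noncomputable def pot (T : List (I × Pc V)) (B : Pc V) : ℕ :=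
  finrank (ZMod 2) B.Y + (T.map (fun p => defi p.2 B.X)).sum

variable [Fintype V]

/-- The normalised density of `A` on the piece `P` is smaller than `(1/2)^s`. -/
def Sparse (A : V → ℝ) (P : Pc V) (s : ℕ) : Prop :=
  (Fintype.card P.Y : ℝ) * 𝔼 x : P.X, A (P.t + x) * iv (P.g (P.t + x) = 0) < (1 / 2) ^ s

/-- A level of the tower: regular, sparse, of bounded size. -/
structure Lev (A : V → ℝ) (d D σ : ℕ) (P : Pc V) : Prop where
  reg : Reg (pb P.b P.X.subtype) σ
  sp : Sparse A P (d + 4)
  dimY : finrank (ZMod 2) P.Y ≤ D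
  dimX : D + d + 4 ≤ finrank (ZMod 2) P.X

/-- A tower (newest level first) with a base. `D` bounds the numbers of equations of the levels,
`σ` is their regularity, `2 R` the rank of the pairs of levels, `K` the weight of the potential
and `C` the codimension paid so far. -/
structure Pre (A : I → V → ℝ) (d D ρ σ R K C : ℕ) (T : List (I × Pc V)) (B : Pc V) : Prop where
  t0 : B.t = 0
  g0 : B.g 0 = 0
  sub : ∀ p ∈ T, Sub p.2 B
  lev : ∀ p ∈ T, Lev (A p.1) d D σ p.2
  pw : T.Pairwise (fun q p => Sub p.2 q.2 ∧ Pair p.2 q.2 (2 * R))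
  dimY : finrank (ZMod 2) B.Y ≤ T.length * ρ
  dimX : finrank (ZMod 2) V + K * pot T B ≤ finrank (ZMod 2) B.X + C

/-- A clean tower: the base is regular, and the pairs of a level and the base have rank at least
`P`. -/
structure Clean (A : I → V → ℝ) (d D ρ σ R K C σ' P : ℕ) (T : List (I × Pc V)) (B : Pc V) : Prop
    where
  pre : Pre A d D ρ σ R K C T B
  reg : Reg (pb B.b B.X.subtype) σ'
  pair : ∀ p ∈ T, Pair p.2 B P

/-- The space of the samples of a flag. -/
abbrev Om {d : ℕ} (Q : Fin d → Pc V) : Type := ∀ k, (Q k).X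

/-- The vectors of a flag. -/
def yv {d : ℕ} (Q : Fin d → Pc V) (w : Om Q) (k : Fin d) : V := (Q k).t + (w k : V)

/-- The equations of a flag. -/
def IsFl {d : ℕ} (Q : Fin d → Pc V) (y : Fin d → V) : Prop :=
  (∀ k, (Q k).g (y k) = 0) ∧ ∀ i k, i < k → (Q i).b (y i) (y k) = 0

/-- The pairs of indices. -/
abbrev Prs (d : ℕ) : Type := {p : Fin d × Fin d // p.1 < p.2}

/-- The phase of a character of the equations of a flag. -/
noncomputable def ph {d : ℕ} (Q : Fin d → Pc V) (l : ∀ k, Dual (ZMod 2) (Q k).Y)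
    (m : ∀ p : Prs d, Dual (ZMod 2) (Q p.1.1).Y) (w : Om Q) : ZMod 2 :=
  ∑ k, l k ((Q k).g (yv Q w k)) +
    ∑ p : Prs d, m p ((Q p.1.1).b (yv Q w p.1.1) (yv Q w p.1.2))

end

/-- The exponent needed in the flag lemma. -/
def flS (d c ρ : ℕ) : ℕ := (d + 1) ^ 2 * (c * d * ρ) + d + 2

/-- The weight of the potential. -/
def flK (d c κ ρ σ' : ℕ) : ℕ := 2 * σ' + (κ + 2 * flS d c ρ)

/-- The codimension paid in a tower of height `m`. -/
def flC (d c κ ρ σ' m : ℕ) : ℕ := m * κ + flK d c κ ρ σ' * (m * (ρ + c * d * ρ))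

/-- The codimension needed in `base_exists`. -/
def flD (d c κ ρ σ' : ℕ) : ℕ := flC d c κ ρ σ' (c * d) + (c * d * ρ + d + 4)

end Pool.Agent.H77.FL
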