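import Pool.Agent.H77.FL.Defs

/-!
# BilBias: the bias of a bilinear form of high rank (about 70 lines)

PROOF. Let `T = 𝔼_x 𝔼_y φ x ψ y sgn (β x y) = 𝔼_x φ x H x`, `H x = 𝔼_y ψ y sgn (β x y)`. By
Cauchy-Schwarz (`Finset.expect_mul_sq_le_sq_mul_sq`, or `T^2 ≤ 𝔼_x (φ x H x)^2` by Jensen,
`expect_pow_even_le` of H77/KM/Basic) `T^2 ≤ 𝔼_x (H x)^2 = 𝔼_x 𝔼_y 𝔼_y' ψ y ψ y' sgn (β x (y + y'))`
`= 𝔼_y 𝔼_y' ψ y ψ y' (𝔼_x sgn (β x (y+y')))`. The inner average is `𝔼_x chi (β.flip (y+y')) x`, equal to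
`1` if `y + y' ∈ ker β.flip` and `0` otherwise (`expect_chi_eq_zero`, `chi_zero_left`), so
`T^2 ≤ 𝔼_y 𝔼_y' iv (y + y' ∈ ker β.flip) = 𝔼_z iv (z ∈ ker β.flip)` (`expect_add_left`)
`= |ker| / |X2| ≤ (1/2)^(2 R)` (`Module.card_eq_pow_finrank`). Take square roots
(`abs_le_of_sq_le_sq`, as at the end of `bias` in QK/QBias).
-/

set_option autoImplicit false

open Finset Function Module
open scoped BigOperators
open Pool.Agent.H77.KM
open Pool.Agent.H22.QK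
open Pool.Agent.H22.QF

namespace Pool.Agent.H77.FL

private theorem bb_ker {X1 X2 : Type} [AddCommGroup X1] [Module (ZMod 2) X1]
    [AddCommGroup X2] [Module (ZMod 2) X2] [Fintype X2]
    (γ : X2 →ₗ[ZMod 2] X1) {R : ℕ}
    (h : finrank (ZMod 2) (LinearMap.ker γ) + 2 * R ≤ finrank (ZMod 2) X2) :
    𝔼 z : X2, iv (γ z = 0) ≤ (1 / 2) ^ (2 * R) := by
  classical
  have h2 : ∑ x : X2, iv (γ x = 0) = (Fintype.card (LinearMap.ker γ) : ℝ) := by
    have h3 : ∀ x : X2, iv (γ x = 0) = if x ∈ LinearMap.ker γ then (1 : ℝ) else 0 := by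
      intro x
      by_cases hx : x ∈ LinearMap.ker γ
      · rw [iv_pos (LinearMap.mem_ker.1 hx), if_pos hx]
      · rw [iv_neg (fun h0 => hx (LinearMap.mem_ker.2 h0)), if_neg hx]
    simp only [h3]
    rw [Finset.sum_boole]
    norm_cast
    rw [Fintype.card_subtype]
  have h4 : (Fintype.card (LinearMap.ker γ) : ℝ) = 2 ^ finrank (ZMod 2) (LinearMap.ker γ) := by
    have h5 := Module.card_eq_pow_finrank (K := ZMod 2) (V := LinearMap.ker γ)
    rw [ZMod.card] at h5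
    exact_mod_cast h5
  have h6 : (Fintype.card X2 : ℝ) = 2 ^ finrank (ZMod 2) X2 := by
    have h5 := Module.card_eq_pow_finrank (K := ZMod 2) (V := X2)
    rw [ZMod.card] at h5
    exact_mod_cast h5
  rw [Finset.expect_eq_sum_div_card, h2, h4, Finset.card_univ, h6]
  rw [div_le_iff₀ (by positivity)]
  have h7 : (1 / 2 : ℝ) ^ (2 * R) * 2 ^ finrank (ZMod 2) X2
      = 2 ^ (finrank (ZMod 2) X2 - 2 * R) := by
    have h8 : finrank (ZMod 2) X2 = (finrank (ZMod 2) X2 - 2 * R) + 2 * R := by omega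
    have h9 : (2 : ℝ) ^ finrank (ZMod 2) X2
        = 2 ^ (finrank (ZMod 2) X2 - 2 * R) * 2 ^ (2 * R) := by
      rw [← pow_add, ← h8]
    rw [h9, mul_comm, mul_assoc, ← mul_pow]
    norm_num
  rw [h7]
  exact pow_le_pow_right₀ (by norm_num) (by omega)

theorem bil_bias {X1 X2 : Type} [AddCommGroup X1] [Module (ZMod 2) X1] [Fintype X1]
    [AddCommGroup X2] [Module (ZMod 2) X2] [Fintype X2]
    (β : X1 →ₗ[ZMod 2] X2 →ₗ[ZMod 2] ZMod 2) {R : ℕ}
    (h : finrank (ZMod 2) (LinearMap.ker β.flip) + 2 * R ≤ finrank (ZMod 2) X2)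
    (φ : X1 → ℝ) (ψ : X2 → ℝ) (hφ : ∀ x, |φ x| ≤ 1) (hψ : ∀ y, |ψ y| ≤ 1) :
    |𝔼 x, 𝔼 y, φ x * ψ y * sgn (β x y)| ≤ (1 / 2) ^ R := by
  have h1 : 𝔼 x, 𝔼 y, φ x * ψ y * sgn (β x y) = 𝔼 x, φ x * 𝔼 y, ψ y * sgn (β x y) := by
    refine Finset.expect_congr rfl fun x _ => ?_
    rw [Finset.mul_expect]
    refine Finset.expect_congr rfl fun y _ => ?_
    ring
  have h2 : (𝔼 x, φ x * 𝔼 y, ψ y * sgn (β x y)) ^ 2 ≤ 𝔼 x, (𝔼 y, ψ y * sgn (β x y)) ^ 2 := by
    refine le_trans (expect_pow_even_le Finset.univ_nonempty _ even_two) ?_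
    refine Finset.expect_le_expect fun x _ => ?_
    rw [mul_pow]
    have hx : φ x ^ 2 ≤ 1 := by
      rw [← sq_abs]
      exact pow_le_one₀ (abs_nonneg _) (hφ x)
    have hs := sq_nonneg (𝔼 y, ψ y * sgn (β x y))
    calc φ x ^ 2 * (𝔼 y, ψ y * sgn (β x y)) ^ 2 ≤ 1 * (𝔼 y, ψ y * sgn (β x y)) ^ 2 :=
          mul_le_mul_of_nonneg_right hx hs
      _ = _ := one_mul _
  have h3 : ∀ x, (𝔼 y, ψ y * sgn (β x y)) ^ 2
      = 𝔼 y, 𝔼 z, ψ y * ψ (y + z) * chi (β.flip z) x := by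
    intro x
    rw [pow_two, Finset.expect_mul]
    refine Finset.expect_congr rfl fun y _ => ?_
    rw [← expect_add_left (fun y => ψ y * sgn (β x y)) y, Finset.mul_expect]
    refine Finset.expect_congr rfl fun z _ => ?_
    have e1 : sgn (β x (y + z)) = sgn (β x y) * sgn (β x z) := by
      rw [map_add, sgn_add]
    have e2 : chi (β.flip z) x = sgn (β x z) := rfl
    rw [e1, e2]
    have e3 := sgn_sq (β x y)
    linear_combination (ψ y * ψ (y + z) * sgn (β x z)) * e3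
  have h4 : 𝔼 x, (𝔼 y, ψ y * sgn (β x y)) ^ 2
      = 𝔼 y, 𝔼 z, ψ y * ψ (y + z) * 𝔼 x, chi (β.flip z) x := by
    simp only [h3]
    rw [Finset.expect_comm]
    refine Finset.expect_congr rfl fun y _ => ?_
    rw [Finset.expect_comm]
    refine Finset.expect_congr rfl fun z _ => ?_
    rw [Finset.mul_expect]
  have h5 : 𝔼 y, 𝔼 z, ψ y * ψ (y + z) * 𝔼 x, chi (β.flip z) x ≤ (1 / 2) ^ (2 * R) := by
    have h6 : ∀ y : X2, 𝔼 z, ψ y * ψ (y + z) * 𝔼 x, chi (β.flip z) x ≤ (1 / 2) ^ (2 * R) := by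
      intro y
      refine le_trans (Finset.expect_le_expect (g := fun z => iv (β.flip z = 0))
        fun z _ => ?_) (bb_ker β.flip h)
      by_cases hz : β.flip z = 0
      · rw [iv_pos hz, hz]
        simp only [chi_zero_left]
        rw [Finset.expect_const Finset.univ_nonempty, mul_one]
        calc ψ y * ψ (y + z) ≤ |ψ y * ψ (y + z)| := le_abs_self _
          _ = |ψ y| * |ψ (y + z)| := abs_mul _ _
          _ ≤ 1 * 1 := mul_le_mul (hψ _) (hψ _) (abs_nonneg _) zero_le_one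
          _ = 1 := one_mul 1
      · rw [iv_neg hz, expect_chi_eq_zero hz, mul_zero]
    refine le_trans (Finset.expect_le_expect (g := fun _ => (1 / 2 : ℝ) ^ (2 * R))
      fun y _ => h6 y) ?_
    rw [Finset.expect_const Finset.univ_nonempty]
  rw [h1]
  have h6 : (𝔼 x, φ x * 𝔼 y, ψ y * sgn (β x y)) ^ 2 ≤ (1 / 2) ^ (2 * R) := by
    rw [h4] at h2
    exact h2.trans h5
  rw [mul_comm 2 R, pow_mul] at h6
  exact abs_le_of_sq_le_sq h6 (by positivity)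

end Pool.Agent.H77.FL
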