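import Pool.Agent.H77.KM.Basic

/-!
# Resample: resampling one or two coordinates (about 50 lines, Mathlib only)

PROOF of `res1`. For fixed `x : X k` the map `w ↦ update w k (w k + x) = w + Pi.single k x` is a
bijection of the product, so `𝔼 w, F w = 𝔼 w, F (update w k (w k + x))` (`expect_add_right` of
H77/KM/Basic applied to the product group). Average over `x` (`Finset.expect_const`,
`Finset.expect_comm`); for fixed `w`
`𝔼 x, F (update w k (w k + x)) = 𝔼 x, F (update w k x)` by `expect_add_left` on `X k`.

PROOF of `res2`. Apply `res1` to `F` with the index `k`, then `res1` to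
`w ↦ 𝔼 y, F (update w k y)` with the index `j`.
-/

set_option autoImplicit false

open Finset Function Module
open scoped BigOperators
open Pool.Agent.H77.KM

namespace Pool.Agent.H77.FL

theorem res1 {ι : Type} [Fintype ι] [DecidableEq ι] {X : ι → Type} [∀ k, AddCommGroup (X k)]
    [∀ k, Fintype (X k)] (F : (∀ k, X k) → ℝ) (k : ι) :
    𝔼 w, F w = 𝔼 w, 𝔼 x : X k, F (update w k x) := by
  have h1 : ∀ x : X k, 𝔼 w, F (update w k (w k + x)) = 𝔼 w, F w := fun x => by
    rw [← expect_add_right F (Pi.single k x)]
    refine expect_congr rfl fun w _ => ?_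
    congr 1
    ext i
    by_cases h : i = k
    · subst h
      simp
    · simp [h]
  calc 𝔼 w, F w = 𝔼 _x : X k, 𝔼 w, F w := (expect_const univ_nonempty _).symm
    _ = 𝔼 x : X k, 𝔼 w, F (update w k (w k + x)) := by
        refine expect_congr rfl fun x _ => (h1 x).symm
    _ = 𝔼 w, 𝔼 x : X k, F (update w k (w k + x)) := expect_comm _ _ _
    _ = 𝔼 w, 𝔼 x : X k, F (update w k x) :=
        expect_congr rfl fun w _ => expect_add_left (fun x => F (update w k x)) (w k)

theorem res2 {ι : Type} [Fintype ι] [DecidableEq ι] {X : ι → Type} [∀ k, AddCommGroup (X k)]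
    [∀ k, Fintype (X k)] (F : (∀ k, X k) → ℝ) (j k : ι) :
    𝔼 w, F w = 𝔼 w, 𝔼 x : X j, 𝔼 y : X k, F (update (update w j x) k y) := by
  rw [res1 F k]
  exact res1 (fun w => 𝔼 y : X k, F (update w k y)) j

end Pool.Agent.H77.FL
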