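import Pool.Agent.H77.FL.PhSplit
import Pool.Agent.H77.FL.BilBias
import Pool.Agent.H77.FL.Resample

/-!
# CharA: characters with a pair of high rank (about 90 lines)

PROOF. Let `j = p.1.1 < k = p.1.2`. By `res2` (for `j`, `k`) it is enough to bound, for every fixed
`w`, the average over `x : (Q j).X`, `y : (Q k).X` of
`τ (U x y i) * sgn (ph Q l m (U x y))`, `U x y = update (update w j x) k y`, by `(1/2)^R`
(`Finset.abs_expect_le`, `Finset.expect_le_expect`, `Finset.expect_const`).
By `ph_split` and `sgn_add`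
`sgn (ph (U x y)) = sgn (ph (U x 0)) * [sgn (ph (U 0 y)) * sgn (ph (U 0 0))] * sgn (m p (b x y))`.
The factor `τ (U x y i)`: if `i = j` it is `τ x`, a function of `x` alone (`j ≠ k`); if `i = k` it is
a function of `y`; otherwise a constant. In all three cases the product has the form
`φ x * ψ y * sgn (β x y)`, `|φ| ≤ 1`, `|ψ| ≤ 1` (`abs_sgn`), with
`β x y = m p ((Q j).b x y)` (`β = (((Q j).b.compr₂ (m p)).compl₁₂ (Q j).X.subtype (Q k).X.subtype)`).
Apply `bil_bias`. The kernel of `β.flip` maps injectively (by the subtype of `(Q k).X`) into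
`rk (Q j) (m p) ⊓ (Q k).X`, so `finrank ker ≤ finrank (rk ⊓ X)`
(`LinearMap.finrank_le_finrank_of_injective`) and `hp` gives the hypothesis.
(A way to treat the three cases at once: `τ (U x y i) = A x * B y` with `A`, `B` bounded by `1`.)
-/

set_option autoImplicit false

open Finset Function Module
open scoped BigOperators
open Pool.Agent.H77.KM
open Pool.Agent.H22.QK
open Pool.Agent.H22.QF

namespace Pool.Agent.H77.FL

variable {V : Type} [AddCommGroup V] [Module (ZMod 2) V] [Fintype V]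

private theorem tau_split {d : ℕ} (Q : Fin d → Pc V) (p : Prs d) (w : Om Q) (i : Fin d)
    (τ : (Q i).X → ℝ) (hτ : ∀ x, |τ x| ≤ 1) :
    ∃ (a : (Q p.1.1).X → ℝ) (c : (Q p.1.2).X → ℝ), (∀ x, |a x| ≤ 1) ∧ (∀ y, |c y| ≤ 1) ∧
      ∀ x y, τ (update (update w p.1.1 x) p.1.2 y i) = a x * c y := by
  have hjk : p.1.1 ≠ p.1.2 := ne_of_lt p.2
  by_cases h1 : i = p.1.2
  · subst h1
    refine ⟨fun _ => 1, τ, fun _ => by simp, hτ, fun x y => ?_⟩
    rw [update_self, one_mul]
  · by_cases h2 : i = p.1.1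
    · subst h2
      refine ⟨τ, fun _ => 1, hτ, fun _ => by simp, fun x y => ?_⟩
      rw [update_of_ne hjk, update_self, mul_one]
    · refine ⟨fun _ => 1, fun _ => τ (w i), fun _ => by simp, fun _ => hτ _, fun x y => ?_⟩
      rw [update_of_ne h1, update_of_ne h2, one_mul]

theorem char_a {d : ℕ} (Q : Fin d → Pc V) {R : ℕ} (l : ∀ k, Dual (ZMod 2) (Q k).Y)
    (m : ∀ p : Prs d, Dual (ZMod 2) (Q p.1.1).Y) (p : Prs d)
    (hp : High (Q p.1.1) (m p) (Q p.1.2).X (2 * R)) (i : Fin d) (τ : (Q i).X → ℝ)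
    (hτ : ∀ x, |τ x| ≤ 1) :
    |𝔼 w : Om Q, τ (w i) * sgn (ph Q l m w)| ≤ (1 / 2) ^ R := by
  classical
  rw [res2 (fun w : Om Q => τ (w i) * sgn (ph Q l m w)) p.1.1 p.1.2]
  refine (Finset.abs_expect_le _ _).trans ?_
  refine Finset.expect_le Finset.univ_nonempty fun w _ => ?_
  obtain ⟨a, c, ha, hc, hac⟩ := tau_split Q p w i τ hτ
  let β : (Q p.1.1).X →ₗ[ZMod 2] (Q p.1.2).X →ₗ[ZMod 2] ZMod 2 :=
    ((Q p.1.1).b.compr₂ (m p)).compl₁₂ (Q p.1.1).X.subtype (Q p.1.2).X.subtype
  have hβ : ∀ x y, β x y = m p ((Q p.1.1).b (x : V) (y : V)) := fun x y => rfl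
  have hker : finrank (ZMod 2) (LinearMap.ker β.flip) + 2 * R ≤ finrank (ZMod 2) (Q p.1.2).X := by
    refine le_trans (Nat.add_le_add_right ?_ _) hp
    let j : LinearMap.ker β.flip →ₗ[ZMod 2]
        (rk (Q p.1.1) (m p) ⊓ (Q p.1.2).X : Submodule (ZMod 2) V) :=
      LinearMap.codRestrict _ ((Q p.1.2).X.subtype ∘ₗ (LinearMap.ker β.flip).subtype) (by
        intro y
        refine Submodule.mem_inf.2 ⟨?_, (y : (Q p.1.2).X).2⟩
        intro x hx
        have h1 : β.flip (y : (Q p.1.2).X) = 0 := LinearMap.mem_ker.1 y.2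
        have h2 := LinearMap.congr_fun h1 ⟨x, hx⟩
        rw [LinearMap.flip_apply, hβ] at h2
        exact h2)
    have hj : Injective j := by
      intro x y hxy
      have h1 := congrArg Subtype.val hxy
      exact Subtype.ext (Subtype.ext h1)
    exact LinearMap.finrank_le_finrank_of_injective hj
  have hmain := bil_bias β hker
    (fun x => a x * sgn (ph Q l m (update (update w p.1.1 x) p.1.2 0)))
    (fun y => c y * (sgn (ph Q l m (update (update w p.1.1 0) p.1.2 y)) *
      sgn (ph Q l m (update (update w p.1.1 0) p.1.2 0))))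
    (fun x => by
      rw [abs_mul, abs_sgn, mul_one]
      exact ha x)
    (fun y => by
      rw [abs_mul, abs_mul, abs_sgn, abs_sgn, mul_one, mul_one]
      exact hc y)
  refine le_trans (le_of_eq ?_) hmain
  congr 1
  refine Finset.expect_congr rfl fun x _ => Finset.expect_congr rfl fun y _ => ?_
  rw [hac, ph_split Q l m p w x y, sgn_add, sgn_add, sgn_add, hβ]
  ring

end Pool.Agent.H77.FL
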