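import Pool.Agent.H77.FL.PhSplit
import Pool.Agent.H77.FL.Resample

/-!
# CharB: characters with a quadratic part (about 80 lines)

PROOF. All `m p` are zero, so `ph Q l m w = ∑ i', l i' ((Q i').g (yv Q w i'))`. By `res1` for the
coordinate `k` it is enough to bound for every fixed `w` the average over `x : (Q k).X` of
`τ ((update w k x) i) * sgn (ph (update w k x))`. As `i ≠ k` the first factor is `τ (w i)`; the phase
is `l k ((Q k).g ((Q k).t + x)) + c` with a constant `c` (the other terms do not depend on `x`: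
`yv_update_ne`, `Finset.sum_erase`/`Finset.add_sum_erase`). So the average has absolute value at most
`|𝔼 x, sgn (l k ((Q k).g ((Q k).t + x)))| ≤ (1/2)^R` by `bias` (QK/QBias) with `z = 0` for the map
`(Q k).qm.pull (Q k).X.subtype (Q k).t` and the hypothesis `hreg (l k) hl`.
-/

set_option autoImplicit false

open Finset Function Module
open scoped BigOperators
open Pool.Agent.H77.KM
open Pool.Agent.H22.QK
open Pool.Agent.H22.QF

namespace Pool.Agent.H77.FL

variable {V : Type} [AddCommGroup V] [Module (ZMod 2) V] [Fintype V]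

theorem char_b {d : ℕ} (Q : Fin d → Pc V) {R : ℕ} (l : ∀ k, Dual (ZMod 2) (Q k).Y)
    (m : ∀ p : Prs d, Dual (ZMod 2) (Q p.1.1).Y) (hm : ∀ p, m p = 0) (i k : Fin d) (hik : k ≠ i)
    (hl : l k ≠ 0) (hreg : Reg (pb (Q k).b (Q k).X.subtype) R) (τ : (Q i).X → ℝ)
    (hτ : ∀ x, |τ x| ≤ 1) :
    |𝔼 w : Om Q, τ (w i) * sgn (ph Q l m w)| ≤ (1 / 2) ^ R := by
  classical
  rw [res1 (fun w : Om Q => τ (w i) * sgn (ph Q l m w)) k]
  refine (Finset.abs_expect_le _ _).trans ?_
  refine Finset.expect_le Finset.univ_nonempty fun w _ => ?_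
  have hq : IsQM (fun x : (Q k).X => (Q k).g ((Q k).t + (Q k).X.subtype x))
      (pb (Q k).b (Q k).X.subtype) := (Q k).qm.pull (Q k).X.subtype (Q k).t
  have hb := bias hq (l k) 0 (hreg (l k) hl)
  -- the phase
  have hph : ∀ x : (Q k).X, ph Q l m (update w k x)
      = l k ((Q k).g ((Q k).t + (x : V))) +
        ∑ k' ∈ (Finset.univ.erase k), l k' ((Q k').g (yv Q w k')) := by
    intro x
    unfold ph
    have h1 : ∑ p : Prs d, m p ((Q p.1.1).b (yv Q (update w k x) p.1.1)
        (yv Q (update w k x) p.1.2)) = 0 := by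
      refine Finset.sum_eq_zero fun p _ => ?_
      rw [hm p]
      rfl
    rw [h1, add_zero, ← Finset.add_sum_erase _ _ (Finset.mem_univ k), yv_update_self]
    congr 1
    refine Finset.sum_congr rfl fun k' hk' => ?_
    rw [yv_update_ne Q w x (Finset.ne_of_mem_erase hk')]
  have hτi : ∀ x : (Q k).X, τ (update w k x i) = τ (w i) := by
    intro x
    rw [update_of_ne hik.symm]
  have heq : 𝔼 x : (Q k).X, τ (update w k x i) * sgn (ph Q l m (update w k x))
      = (τ (w i) * sgn (∑ k' ∈ (Finset.univ.erase k), l k' ((Q k').g (yv Q w k')))) *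
        𝔼 x : (Q k).X, sgn (l k ((Q k).g ((Q k).t + (x : V)))) := by
    rw [Finset.mul_expect]
    refine Finset.expect_congr rfl fun x _ => ?_
    rw [hτi, hph, sgn_add]
    ring
  rw [heq, abs_mul, abs_mul, abs_sgn, mul_one]
  have hb' : |𝔼 x : (Q k).X, sgn (l k ((Q k).g ((Q k).t + (x : V))))| ≤ (1 / 2) ^ R := by
    simpa using hb
  calc |τ (w i)| * |𝔼 x : (Q k).X, sgn (l k ((Q k).g ((Q k).t + (x : V))))|
      ≤ 1 * |𝔼 x : (Q k).X, sgn (l k ((Q k).g ((Q k).t + (x : V))))| :=
        mul_le_mul_of_nonneg_right (hτ _) (abs_nonneg _)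
    _ ≤ (1 / 2) ^ R := by rw [one_mul]; exact hb'

end Pool.Agent.H77.FL
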