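import Pool.Agent.H77.FL.Defs

/-!
# CleanA: removing a component of low rank of the base (about 90 lines)

PROOF. `lowrank` (QK/QLow) for the map `w ↦ B.g w` on `B.X` (`IsQM` by `B.qm.pull B.X.subtype 0`,
with `zero_add`) gives `l ≠ 0` and `W : Submodule _ B.X` with `finrank B.X ≤ finrank W + 2 s` and
`l (B.g (v + k)) = l (B.g v)` for `k ∈ W`; for `v = 0`: `l (B.g k) = l (B.g 0) = 0`. Let
`E = ker l` (a subspace of `B.Y`, `finrank E + 1 = finrank B.Y` since `l ≠ 0`) and let
`π : B.Y →ₗ E` be a left inverse of `E.subtype` (`LinearMap.exists_leftInverse_of_injective`).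
`B' = { t := 0, X := W.map B.X.subtype, Y := E, g := fun v => π (B.g v), b := B.b.compr₂ π,
qm := B.qm.map π }`. If `u ∈ B'.X` and `π (B.g u) = 0` then `B.g u ∈ E`, so `B.g u = π (B.g u) = 0`.
`finrank (W.map B.X.subtype) = finrank W` (`Submodule.equivMapOfInjective`, see QLow).
-/

set_option autoImplicit false

open Finset Function Module
open scoped BigOperators
open Pool.Agent.H77.KM
open Pool.Agent.H22.QK
open Pool.Agent.H22.QF

namespace Pool.Agent.H77.FL

variable {V : Type} [AddCommGroup V] [Module (ZMod 2) V] [Fintype V]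

theorem clean_a (B : Pc V) (hg : B.g 0 = 0) {s : ℕ} (h : ¬ Reg (pb B.b B.X.subtype) s) :
    ∃ B' : Pc V, B'.t = 0 ∧ B'.g 0 = 0 ∧ B'.X ≤ B.X ∧
      finrank (ZMod 2) B.X ≤ finrank (ZMod 2) B'.X + 2 * s ∧
      finrank (ZMod 2) B'.Y + 1 ≤ finrank (ZMod 2) B.Y ∧
      ∀ u ∈ B'.X, B'.g u = 0 → B.g u = 0 := by
  classical
  have hq : IsQM (fun w : B.X => B.g (0 + B.X.subtype w)) (pb B.b B.X.subtype) :=
    B.qm.pull B.X.subtype 0
  obtain ⟨l, hl, W, hW, hinv⟩ := lowrank hq h
  have hzero : ∀ k ∈ W, l (B.g (k : V)) = 0 := by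
    intro k hk
    have h1 := hinv 0 k hk
    simpa [hg] using h1
  set E : Submodule (ZMod 2) B.Y := LinearMap.ker l with hE
  obtain ⟨π, hπ⟩ := LinearMap.exists_leftInverse_of_injective E.subtype
    (LinearMap.ker_eq_bot.2 E.injective_subtype)
  have hπ' : ∀ e : E, π (e : B.Y) = e := fun e => by
    have := LinearMap.congr_fun hπ e
    simpa using this
  have hfE : finrank (ZMod 2) E + 1 ≤ finrank (ZMod 2) B.Y := by
    have h1 := LinearMap.finrank_range_add_finrank_ker l
    have h2 : 1 ≤ finrank (ZMod 2) (LinearMap.range l) := by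
      rw [Nat.one_le_iff_ne_zero]
      intro h3
      apply hl
      rw [Submodule.finrank_eq_zero] at h3
      exact LinearMap.range_eq_bot.1 h3
    rw [hE]
    omega
  let B' : Pc V :=
    { t := 0
      X := W.map B.X.subtype
      Y := E
      fin := Fintype.ofFinite _
      g := fun v => π (B.g v)
      b := B.b.compr₂ π
      qm := B.qm.map π }
  refine ⟨B', rfl, ?_, ?_, ?_, hfE, ?_⟩
  · change π (B.g 0) = 0
    rw [hg, map_zero]
  · intro v hv
    obtain ⟨w, _, rfl⟩ := Submodule.mem_map.1 hv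
    exact w.2
  · change finrank (ZMod 2) B.X ≤ finrank (ZMod 2) (W.map B.X.subtype) + 2 * s
    rw [(LinearEquiv.finrank_eq (Submodule.equivMapOfInjective B.X.subtype
      B.X.injective_subtype W)).symm]
    exact hW
  · intro u hu h0
    change π (B.g u) = 0 at h0
    obtain ⟨w, hw, rfl⟩ := Submodule.mem_map.1 hu
    have h1 : B.g (B.X.subtype w) ∈ E := LinearMap.mem_ker.2 (hzero w hw)
    have h2 := hπ' ⟨B.g (B.X.subtype w), h1⟩
    change π (B.g (B.X.subtype w)) = _ at h2
    rw [h0] at h2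
    exact (congrArg Subtype.val h2).symm

end Pool.Agent.H77.FL
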