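import Pool.Agent.H77.FL.Defs

/-!
# SpanT: the span of a good flag (about 60 lines)

PROOF. For `c : Fin d → ZMod 2` put `T = univ.filter (fun k => c k = 1)`; every `c k` is `0` or `1`, so
`∑ k, c k • y k = ∑ k ∈ T, y k` (`Finset.sum_filter`). If this is `0` then `T` is empty by `h`, so
`c = 0`: `y` is linearly independent (`Fintype.linearIndependent_iff`). Take
`U = Submodule.span (ZMod 2) (Set.range y)`: `finrank_span_eq_card`. An element of `U` is
`∑ k, c k • y k` (`Submodule.mem_span_range_iff_exists_fun`); if `T` is empty it is `0` and `hA0` applies,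
otherwise `h`.
-/

set_option autoImplicit false

open Finset Function Module
open scoped BigOperators
open Pool.Agent.H77.KM
open Pool.Agent.H22.QK
open Pool.Agent.H22.QF

namespace Pool.Agent.H77.FL

variable {V : Type} [AddCommGroup V] [Module (ZMod 2) V] [Fintype V]

theorem span_t {d : ℕ} {A : V → ℝ} (hA0 : A 0 = 0) (y : Fin d → V)
    (h : ∀ T : Finset (Fin d), T.Nonempty → A (∑ k ∈ T, y k) = 0 ∧ ∑ k ∈ T, y k ≠ 0) :
    ∃ U : Submodule (ZMod 2) V, finrank (ZMod 2) U = d ∧ ∀ u ∈ U, A u = 0 := by
  classical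
  have z01 : ∀ z : ZMod 2, z = 0 ∨ z = 1 := by decide
  have hsum : ∀ c : Fin d → ZMod 2,
      ∑ k, c k • y k = ∑ k ∈ univ.filter (fun k => c k = 1), y k := by
    intro c
    rw [Finset.sum_filter]
    refine Finset.sum_congr rfl fun k _ => ?_
    rcases z01 (c k) with hk | hk
    · rw [hk]; simp
    · rw [hk]; simp
  have hlin : LinearIndependent (ZMod 2) y := by
    rw [Fintype.linearIndependent_iff]
    intro c hc
    rw [hsum c] at hc
    intro k
    by_contra hk
    have h1 : c k = 1 := (z01 (c k)).resolve_left hk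
    exact (h (univ.filter (fun k => c k = 1)) ⟨k, by simp [h1]⟩).2 hc
  refine ⟨Submodule.span (ZMod 2) (Set.range y), ?_, ?_⟩
  · rw [finrank_span_eq_card hlin, Fintype.card_fin]
  · intro u hu
    rw [Submodule.mem_span_range_iff_exists_fun] at hu
    obtain ⟨c, rfl⟩ := hu
    rw [hsum c]
    by_cases hT : (univ.filter (fun k => c k = 1)).Nonempty
    · exact (h _ hT).1
    · rw [Finset.not_nonempty_iff_eq_empty] at hT
      rw [hT, Finset.sum_empty]
      exact hA0

end Pool.Agent.H77.FL
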