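import Pool.Agent.H77.FL.FlagEx
import Pool.Agent.H77.FL.SpanT

/-!
# Contra: a tower of height `c d` gives a subspace (about 110 lines)

PROOF. Pigeonhole on the list: some `i : I` has `d ≤ (T.filter (fun p => p.1 = i)).length` (otherwise
each of the `card I ≤ c` colours occurs at most `d - 1` times and `T.length ≤ c (d - 1) < c d`; e.g.
`T.length = ∑ i, (T.filter (· .1 = i)).length`, by induction on the list or
`List.sum_map_count_dedup_eq_length` for `T.map Prod.fst`; `Multiset.card_eq_sum_countP`...). Let
`T1 = (T.filter (fun p => p.1 = i)).take d`, a sublist of `T` of length `d`; by `hpw`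
`T1.Pairwise ..` (`List.Pairwise.sublist`), and `T2 = T1.reverse` satisfies
`T2.Pairwise (fun p q => Sub p.2 q.2 ∧ Pair p.2 q.2 (2 R))` (`List.pairwise_reverse`). Put
`Q k = (T2.get (k cast to Fin T2.length)).2`; `List.pairwise_iff_get` gives the relation for
`i < k`, and every element of `T2` is an element of `T` with first component `i`, so
`Lev (A i) d D σ (Q k)`. Now `flag_ex` and `span_t`.
-/

set_option autoImplicit false

open Finset Function Module
open scoped BigOperators
open Pool.Agent.H77.KM
open Pool.Agent.H22.QK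
open Pool.Agent.H22.QF

namespace Pool.Agent.H77.FL

variable {V : Type} [AddCommGroup V] [Module (ZMod 2) V] [Fintype V]

variable {I : Type}

/-- Counting a list by colours. -/
private theorem length_colours {α : Type 1} [Fintype I] [DecidableEq I] (T : List (I × α)) :
    T.length = ∑ i : I, (T.filter (fun p => decide (p.1 = i))).length := by
  induction T with
  | nil => simp
  | cons p T ih =>
    have h : ∀ i : I, ((p :: T).filter (fun p => decide (p.1 = i))).length
        = (if p.1 = i then 1 else 0) + (T.filter (fun p => decide (p.1 = i))).length := by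
      intro i
      by_cases hi : p.1 = i
      · rw [List.filter_cons_of_pos (by simpa using hi), if_pos hi, List.length_cons, add_comm]
      · rw [List.filter_cons_of_neg (by simpa using hi), if_neg hi, zero_add]
    simp only [h]
    rw [Finset.sum_add_distrib, ← ih, Finset.sum_ite_eq, if_pos (Finset.mem_univ _),
      List.length_cons, add_comm]

theorem contra [Fintype I] [Nonempty I] {A : I → V → ℝ} (hA : ∀ i v, A i v = 0 ∨ A i v = 1)
    (hA0 : ∀ i, A i 0 = 0) {c d D σ R : ℕ} (hc : Fintype.card I ≤ c) (hd : 1 ≤ d)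
    (hR : (d + 1) ^ 2 * D + d + 2 ≤ R) (hσ : R ≤ σ) (T : List (I × Pc V))
    (hlev : ∀ p ∈ T, Lev (A p.1) d D σ p.2)
    (hpw : T.Pairwise (fun q p => Sub p.2 q.2 ∧ Pair p.2 q.2 (2 * R)))
    (hlen : c * d ≤ T.length) :
    ∃ (i : I) (U : Submodule (ZMod 2) V), finrank (ZMod 2) U = d ∧ ∀ u ∈ U, A i u = 0 := by
  classical
  -- pigeonhole
  have hex : ∃ i : I, d ≤ (T.filter (fun p => decide (p.1 = i))).length := by
    by_contra hcon
    push Not at hcon
    have h1 : T.length < c * d := by
      rw [length_colours T]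
      have h2 : ∑ i : I, (T.filter (fun p => decide (p.1 = i))).length < ∑ _i : I, d :=
        Finset.sum_lt_sum_of_nonempty Finset.univ_nonempty (fun i _ => hcon i)
      rw [Finset.sum_const, Finset.card_univ, smul_eq_mul] at h2
      exact h2.trans_le (Nat.mul_le_mul_right d hc)
    omega
  obtain ⟨i, hi⟩ := hex
  set T0 := T.filter (fun p => decide (p.1 = i)) with hT0
  set T1 := T0.take d with hT1
  have hsub : T1.Sublist T := (List.take_sublist d T0).trans List.filter_sublist
  have hlen1 : T1.length = d := by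
    rw [hT1, List.length_take]
    omega
  have hmem : ∀ p ∈ T1, p ∈ T ∧ p.1 = i := by
    intro p hp
    have h1 : p ∈ T0 := List.mem_of_mem_take hp
    rw [hT0, List.mem_filter] at h1
    exact ⟨h1.1, by simpa using h1.2⟩
  have hpw1 : T1.Pairwise (fun q p => Sub p.2 q.2 ∧ Pair p.2 q.2 (2 * R)) := hpw.sublist hsub
  have hpw2 : T1.reverse.Pairwise (fun p q => Sub p.2 q.2 ∧ Pair p.2 q.2 (2 * R)) := by
    rw [List.pairwise_reverse]
    exact hpw1
  have hlen2 : T1.reverse.length = d := by rw [List.length_reverse, hlen1]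
  let Q : Fin d → Pc V := fun k => (T1.reverse.get (Fin.cast hlen2.symm k)).2
  have hlQ : ∀ k, Lev (A i) d D σ (Q k) := by
    intro k
    have h1 : T1.reverse.get (Fin.cast hlen2.symm k) ∈ T1.reverse := List.get_mem _ _
    rw [List.mem_reverse] at h1
    obtain ⟨h2, h3⟩ := hmem _ h1
    have h4 := hlev _ h2
    rw [h3] at h4
    exact h4
  have hsQ : ∀ j k, j < k → Sub (Q j) (Q k) ∧ Pair (Q j) (Q k) (2 * R) := by
    intro j k hjk
    exact List.pairwise_iff_get.1 hpw2 (Fin.cast hlen2.symm j) (Fin.cast hlen2.symm k) hjk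
  obtain ⟨y, hy⟩ := flag_ex hd (hA i) (hA0 i) Q hlQ hsQ hR hσ
  obtain ⟨U, hU⟩ := span_t (hA0 i) y hy
  exact ⟨i, U, hU⟩

end Pool.Agent.H77.FL
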