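import Pool.Agent.H22.QK.QCount

/-!
# CountW: weighted counting by characters (about 100 lines)

PROOF. Copy of `count_coset` in QK/QCount with the weight `a` and `s = 0`: for `y : S`
`iv (y ∈ E) = (1/|S ⧸ E|) ∑_{m ∈ Dual (S ⧸ E)} chi m (E.mkQ y)`, multiply by `a x` and average over `x`
with `y = Θ x`. The term `m = 0` gives `(|E|/|S|) 𝔼 a`; each of the other terms is at most `δ` in
absolute value by `hδ` for `l = m ∘ₗ E.mkQ` (nonzero and zero on `E`), and there are fewer than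
`|S ⧸ E|` of them.
-/

set_option autoImplicit false

open Finset Function Module
open scoped BigOperators
open Pool.Agent.H77.KM
open Pool.Agent.H22.QK

namespace Pool.Agent.H77.FL

theorem count_cosetW {X S : Type} [Fintype X] [Nonempty X] [AddCommGroup S] [Module (ZMod 2) S]
    [Fintype S] (Θ : X → S) (a : X → ℝ) (E : Submodule (ZMod 2) S) {δ : ℝ} (h0 : 0 ≤ δ)
    (hδ : ∀ l : Dual (ZMod 2) S, l ≠ 0 → (∀ e ∈ E, l e = 0) →
      |𝔼 x, a x * sgn (l (Θ x))| ≤ δ) :
    |𝔼 x, a x * iv (Θ x ∈ E) - (Fintype.card E : ℝ) / Fintype.card S * 𝔼 x, a x| ≤ δ := by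
  classical
  have hfinQ : Finite (S ⧸ E) := Finite.of_surjective E.mkQ (Submodule.mkQ_surjective E)
  let : Fintype (S ⧸ E) := Fintype.ofFinite _
  -- cardinalities
  have hcard : (Fintype.card S : ℝ) = Fintype.card (S ⧸ E) * Fintype.card E := by
    have h1 := AddSubgroup.card_eq_card_quotient_mul_card_addSubgroup (α := S) E.toAddSubgroup
    have h2 : Nat.card (S ⧸ E.toAddSubgroup) = Fintype.card (S ⧸ E) := by
      rw [← Nat.card_eq_fintype_card]
      rfl
    have h3 : Nat.card E.toAddSubgroup = Fintype.card E := by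
      rw [← Nat.card_eq_fintype_card]
      rfl
    rw [h2, h3, Nat.card_eq_fintype_card] at h1
    rw [h1]
    push_cast
    ring
  have hQ : (0 : ℝ) < Fintype.card (S ⧸ E) := by
    exact_mod_cast Fintype.card_pos
  have hE : (0 : ℝ) < Fintype.card E := by
    exact_mod_cast Fintype.card_pos
  have hratio : (Fintype.card E : ℝ) / Fintype.card S = 1 / Fintype.card (S ⧸ E) := by
    rw [hcard]
    field_simp
  -- the indicator
  have hiv : ∀ x, a x * iv (Θ x ∈ E) =
      (1 / (Fintype.card (S ⧸ E) : ℝ)) *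
        ∑ m : Dual (ZMod 2) (S ⧸ E), a x * chi m (E.mkQ (Θ x)) := by
    intro x
    rw [← Finset.mul_sum]
    by_cases hx : Θ x ∈ E
    · have h1 : E.mkQ (Θ x) = 0 := by
        rw [Submodule.mkQ_apply]
        exact (Submodule.Quotient.mk_eq_zero E).2 hx
      rw [iv_pos hx, h1, sum_chi_zero]
      field_simp
    · have h1 : E.mkQ (Θ x) ≠ 0 := by
        rw [Submodule.mkQ_apply]
        intro h
        exact hx ((Submodule.Quotient.mk_eq_zero E).1 h)
      rw [iv_neg hx, sum_chi_eq_zero h1, mul_zero, mul_zero]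
  -- the average
  have havg : 𝔼 x, a x * iv (Θ x ∈ E) = (1 / (Fintype.card (S ⧸ E) : ℝ)) *
      ∑ m : Dual (ZMod 2) (S ⧸ E), 𝔼 x, a x * chi m (E.mkQ (Θ x)) := by
    rw [Finset.expect_congr rfl (fun x _ => hiv x), ← Finset.mul_expect, Finset.expect_sum_comm]
  have hzero : 𝔼 x : X, a x * chi (0 : Dual (ZMod 2) (S ⧸ E)) (E.mkQ (Θ x)) = 𝔼 x, a x := by
    simp only [chi_zero_left, mul_one]
  have hother : ∀ m ∈ (Finset.univ.erase (0 : Dual (ZMod 2) (S ⧸ E))),
      |𝔼 x, a x * chi m (E.mkQ (Θ x))| ≤ δ := by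
    intro m hm
    have hm0 : m ≠ 0 := (Finset.mem_erase.1 hm).1
    have hl0 : m ∘ₗ E.mkQ ≠ 0 := by
      intro h
      apply hm0
      apply LinearMap.ext
      intro z
      obtain ⟨y, rfl⟩ := Submodule.mkQ_surjective E z
      have := LinearMap.congr_fun h y
      simpa using this
    have hlE : ∀ e ∈ E, (m ∘ₗ E.mkQ) e = 0 := by
      intro e he
      have h1 : E.mkQ e = 0 := by
        rw [Submodule.mkQ_apply]
        exact (Submodule.Quotient.mk_eq_zero E).2 he
      rw [LinearMap.comp_apply, h1, map_zero]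
    exact hδ _ hl0 hlE
  have hsplit : ∑ m : Dual (ZMod 2) (S ⧸ E), 𝔼 x, a x * chi m (E.mkQ (Θ x)) =
      (∑ m ∈ (Finset.univ.erase (0 : Dual (ZMod 2) (S ⧸ E))), 𝔼 x, a x * chi m (E.mkQ (Θ x))) +
        𝔼 x, a x := by
    rw [← Finset.sum_erase_add _ _ (Finset.mem_univ (0 : Dual (ZMod 2) (S ⧸ E))), hzero]
  rw [havg, hratio, hsplit, mul_add, add_sub_cancel_right, abs_mul,
    abs_of_pos (by positivity : (0 : ℝ) < 1 / (Fintype.card (S ⧸ E) : ℝ))]
  have hsum : |∑ m ∈ (Finset.univ.erase (0 : Dual (ZMod 2) (S ⧸ E))),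
      𝔼 x, a x * chi m (E.mkQ (Θ x))| ≤ Fintype.card (S ⧸ E) * δ := by
    refine (Finset.abs_sum_le_sum_abs _ _).trans ?_
    refine (Finset.sum_le_card_nsmul _ _ _ hother).trans ?_
    rw [nsmul_eq_mul]
    refine mul_le_mul_of_nonneg_right ?_ h0
    have h1 : (Finset.univ.erase (0 : Dual (ZMod 2) (S ⧸ E))).card ≤ Fintype.card (S ⧸ E) := by
      refine (Finset.card_le_univ _).trans ?_
      rw [card_dual]
    exact_mod_cast h1
  calc 1 / (Fintype.card (S ⧸ E) : ℝ) * |∑ m ∈ (Finset.univ.erase (0 : Dual (ZMod 2) (S ⧸ E))),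
        𝔼 x, a x * chi m (E.mkQ (Θ x))|
      ≤ 1 / (Fintype.card (S ⧸ E) : ℝ) * (Fintype.card (S ⧸ E) * δ) :=
        mul_le_mul_of_nonneg_left hsum (by positivity)
    _ = δ := by field_simp

end Pool.Agent.H77.FL
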