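import Pool.Agent.H77.FL.CharA
import Pool.Agent.H77.FL.CharB
import Pool.Agent.H77.FL.CountW

/-!
# CountE: counting flags with one free coordinate (about 150 lines)

The target of all equations is `S = (∀ k, (Q k).Y) × (∀ p : Prs d, E p)` and
`Θ w = (fun k => (Q k).g (yv Q w k), fun p => π p ((Q p.1.1).b (yv Q w p.1.1) (yv Q w p.1.2)))`.

PROOF. Apply `count_cosetW` with `X = Om Q`, `a w = τ (w i)`, `δ = (1/2)^R` and the subspace
`E0 = range ((LinearMap.inl _ _ _) ∘ₗ (LinearMap.single (ZMod 2) _ i))`, i.e. the `s : S` with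
`s.1 k = 0` for `k ≠ i` and `s.2 = 0`; `|E0| = |(Q i).Y|` (the map is injective:
`LinearEquiv.ofInjective`). `Θ w ∈ E0` means `∀ k ≠ i, g_k (y_k) = 0` and all `π p (..) = 0`.
Multiply with the weight: take `a w = τ (w i) * iv ((Q i).g (yv Q w i) = 0)`; then
`a w * iv (Θ w ∈ E0) = τ (w i) * iv (all g_k (y_k) = 0 and all π p (..) = 0)
= τ (w i) * iv (IsFl Q (yv Q w))` (`h2` for one direction; if `IsFl` then all
`π p (b ..) = π p 0 = 0`). The weight is `τ' (w i)` with `τ' x = τ x * iv ((Q i).g ((Q i).t + x) = 0)`,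
`|τ'| ≤ 1`; its average over `w` is the average of `τ'` over `(Q i).X` (`res1` for `i`, then the inner
average does not depend on `w`).
Characters: for `L : Dual S`, `L ≠ 0`, `L = 0` on `E0`, put `l k = L ∘ inl ∘ single k`,
`m p = (L ∘ inr ∘ single p) ∘ₗ π p`; then `L (Θ w) = ph Q l m w` (write an element of a finite
product as the sum of its components: `LinearMap.pi_ext`-style or `Finset.univ_sum_single`).
`l i = 0`. If some `L ∘ inr ∘ single p ≠ 0` then `High (Q p.1.1) (m p) .. (2 R)` by `h1`: use `char_a`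
(weight `τ'`). Otherwise all `m p = 0` and some `l k ≠ 0` (else `L = 0`), and `k ≠ i` as `l i = 0`: use
`char_b`.
-/

set_option autoImplicit false

open Finset Function Module
open scoped BigOperators
open Pool.Agent.H77.KM
open Pool.Agent.H22.QK
open Pool.Agent.H22.QF

namespace Pool.Agent.H77.FL

variable {V : Type} [AddCommGroup V] [Module (ZMod 2) V] [Fintype V]

/-- the map from the sum of the targets -/
private theorem mem_range_J {d : ℕ} (Q : Fin d → Pc V)
    (E : ∀ p : Prs d, Submodule (ZMod 2) (Q p.1.1).Y) (i : Fin d)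
    (y : (∀ k, (Q k).Y) × (∀ p : Prs d, E p)) :
    y ∈ LinearMap.range ((LinearMap.inl (ZMod 2) (∀ k, (Q k).Y) (∀ p : Prs d, E p)) ∘ₗ
      (LinearMap.single (ZMod 2) (fun k => (Q k).Y) i)) ↔
      (∀ k, k ≠ i → y.1 k = 0) ∧ ∀ p, y.2 p = 0 := by
  constructor
  · rintro ⟨z, rfl⟩
    refine ⟨fun k hk => ?_, fun p => rfl⟩
    simp [hk]
  · rintro ⟨h1, h2⟩
    refine ⟨y.1 i, ?_⟩
    ext k
    · by_cases hk : k = i
      · subst hk
        simp
      · simp [hk, h1 k hk]
    · simp [h2]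

theorem count_e {d : ℕ} (Q : Fin d → Pc V) {R : ℕ}
    (hreg : ∀ k, Reg (pb (Q k).b (Q k).X.subtype) R)
    (E : ∀ p : Prs d, Submodule (ZMod 2) (Q p.1.1).Y)
    (π : ∀ p : Prs d, (Q p.1.1).Y →ₗ[ZMod 2] E p)
    (h1 : ∀ (p : Prs d) (m : Dual (ZMod 2) (E p)), m ≠ 0 →
      High (Q p.1.1) (m ∘ₗ π p) (Q p.1.2).X (2 * R))
    (h2 : ∀ w : Om Q, (∀ k, (Q k).g (yv Q w k) = 0) →
      (∀ p : Prs d, π p ((Q p.1.1).b (yv Q w p.1.1) (yv Q w p.1.2)) = 0) → IsFl Q (yv Q w))
    (i : Fin d) (τ : (Q i).X → ℝ) (hτ : ∀ x, |τ x| ≤ 1) :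
    |𝔼 w : Om Q, τ (w i) * iv (IsFl Q (yv Q w))
      - (Fintype.card (Q i).Y : ℝ) / Fintype.card ((∀ k, (Q k).Y) × (∀ p : Prs d, E p)) *
        𝔼 x : (Q i).X, τ x * iv ((Q i).g ((Q i).t + x) = 0)| ≤ (1 / 2) ^ R := by
  classical
  set Θ : Om Q → (∀ k, (Q k).Y) × (∀ p : Prs d, E p) := fun w =>
    (fun k => (Q k).g (yv Q w k),
      fun p => π p ((Q p.1.1).b (yv Q w p.1.1) (yv Q w p.1.2))) with hΘ
  set J : (Q i).Y →ₗ[ZMod 2] (∀ k, (Q k).Y) × (∀ p : Prs d, E p) :=
    (LinearMap.inl (ZMod 2) (∀ k, (Q k).Y) (∀ p : Prs d, E p)) ∘ₗ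
      (LinearMap.single (ZMod 2) (fun k => (Q k).Y) i) with hJdef
  have hJ : Injective J := by
    intro a b hab
    have h3 : (J a).1 i = (J b).1 i := by rw [hab]
    simpa [hJdef] using h3
  have hcard : Fintype.card (LinearMap.range J) = Fintype.card (Q i).Y :=
    (Fintype.card_congr (LinearEquiv.ofInjective J hJ).toEquiv).symm
  set τ' : (Q i).X → ℝ := fun x => τ x * iv ((Q i).g ((Q i).t + x) = 0) with hτ'
  have hτ'1 : ∀ x, |τ' x| ≤ 1 := by
    intro x
    rw [hτ', abs_mul]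
    have h4 := iv_nonneg ((Q i).g ((Q i).t + x) = 0)
    have h5 := iv_le_one ((Q i).g ((Q i).t + x) = 0)
    rw [abs_of_nonneg h4]
    have h6 := hτ x
    have h7 := abs_nonneg (τ x)
    nlinarith
  have key := count_cosetW Θ (fun w => τ' (w i)) (LinearMap.range J) (δ := (1 / 2) ^ R)
    (by positivity) ?_
  · have e1 : (𝔼 w : Om Q, τ' (w i) * iv (Θ w ∈ LinearMap.range J)) =
        𝔼 w : Om Q, τ (w i) * iv (IsFl Q (yv Q w)) := by
      apply Finset.expect_congr rfl
      intro w _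
      rw [hτ']
      simp only
      rw [mul_assoc, ← iv_and]
      congr 1
      apply iv_congr
      rw [hJdef, mem_range_J]
      constructor
      · rintro ⟨h3, h4, h5⟩
        refine h2 w (fun k => ?_) h5
        by_cases hk : k = i
        · subst hk; exact h3
        · exact h4 k hk
      · rintro ⟨h3, h4⟩
        refine ⟨h3 i, fun k _ => h3 k, fun p => ?_⟩
        have h5 := h4 p.1.1 p.1.2 p.2
        rw [hΘ]
        simp only
        rw [h5, map_zero]
    have e2 : (𝔼 w : Om Q, τ' (w i)) = 𝔼 x : (Q i).X, τ' x := by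
      rw [res1 (fun w : Om Q => τ' (w i)) i]
      simp only [update_self]
      exact Finset.expect_const Finset.univ_nonempty _
    rw [e1, e2, hcard] at key
    exact key
  · intro L hL hL0
    set l : ∀ k, Dual (ZMod 2) (Q k).Y := fun k =>
      L ∘ₗ (LinearMap.inl (ZMod 2) (∀ k, (Q k).Y) (∀ p : Prs d, E p)) ∘ₗ
        (LinearMap.single (ZMod 2) (fun k => (Q k).Y) k) with hl
    set m0 : ∀ p : Prs d, Dual (ZMod 2) (E p) := fun p =>
      L ∘ₗ (LinearMap.inr (ZMod 2) (∀ k, (Q k).Y) (∀ p : Prs d, E p)) ∘ₗ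
        (LinearMap.single (ZMod 2) (fun p => E p) p) with hm0
    set m : ∀ p : Prs d, Dual (ZMod 2) (Q p.1.1).Y := fun p => m0 p ∘ₗ π p with hm
    have hdec : ∀ y : (∀ k, (Q k).Y) × (∀ p : Prs d, E p),
        L y = ∑ k, l k (y.1 k) + ∑ p, m0 p (y.2 p) := by
      intro y
      have h3 : y = LinearMap.inl (ZMod 2) (∀ k, (Q k).Y) (∀ p : Prs d, E p)
          (∑ k, Pi.single k (y.1 k)) +
          LinearMap.inr (ZMod 2) (∀ k, (Q k).Y) (∀ p : Prs d, E p)
          (∑ p, Pi.single p (y.2 p)) := by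
        rw [Finset.univ_sum_single, Finset.univ_sum_single]
        simp
      conv_lhs => rw [h3]
      rw [map_add, map_sum, map_sum, map_sum, map_sum]
      rfl
    have hph : ∀ w, L (Θ w) = ph Q l m w := by
      intro w
      rw [hdec]
      rfl
    have hli : l i = 0 := by
      ext y
      exact hL0 (J y) ⟨y, rfl⟩
    simp only [hph]
    by_cases hm1 : ∃ p, m0 p ≠ 0
    · obtain ⟨p, hp⟩ := hm1
      exact char_a Q l m p (h1 p (m0 p) hp) i τ' hτ'1
    · push Not at hm1
      have hm2 : ∀ p, m p = 0 := by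
        intro p
        rw [hm]
        simp only
        rw [hm1 p, LinearMap.zero_comp]
      obtain ⟨k, hk⟩ : ∃ k, l k ≠ 0 := by
        by_contra hcon
        push Not at hcon
        apply hL
        refine LinearMap.ext fun y => ?_
        rw [hdec]
        simp [hcon, hm1]
      have hki : k ≠ i := by
        rintro rfl
        exact hk hli
      exact char_b Q l m hm2 i k hki hk (hreg k) τ' hτ'1

end Pool.Agent.H77.FL
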