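import Pool.Agent.H77.FL.Defs

/-!
# ExPi: the non-redundant part of a pair condition (about 90 lines)

PROOF. `N = {l : Dual P.Y | Null P Q l}` is a subspace (as `nulS`). Put
`E = N.dualCoannihilator = {y | ∀ l ∈ N, l y = 0}` (`Submodule.mem_dualCoannihilator`) and let `π` be a
left inverse of `E.subtype` (`LinearMap.exists_leftInverse_of_injective`, kernel of the subtype is
`⊥`). If `m ≠ 0` then `m ∘ₗ π` is not null: otherwise it lies in `N`, so it vanishes on `E`, but
`(m ∘ₗ π) y = m y` for `y ∈ E`, hence `m = 0`. So `hp (m ∘ₗ π)` gives `High`.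

Second part: put `a = P.t + x`, `u = Q.t + w`, `z = P.b a u`. For `l ∈ N`:
`l (P.g (a + u)) = l (P.g a)`, `P.g (a + u) = P.g a + P.g u + P.g 0 + P.b a u` and `P.g u = P.g 0`
(third part of `Sub`, because `Q.g u = 0`), so `l z = 0`. Hence `z ∈ E`, `π z = z`, and `π z = 0`
gives `z = 0`.
-/

set_option autoImplicit false

open Finset Function Module
open scoped BigOperators
open Pool.Agent.H77.KM
open Pool.Agent.H22.QK
open Pool.Agent.H22.QF

namespace Pool.Agent.H77.FL

variable {V : Type} [AddCommGroup V] [Module (ZMod 2) V] [Fintype V]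

theorem ex_pi (P Q : Pc V) {R : ℕ} (hs : Sub P Q) (hp : Pair P Q R) :
    ∃ (E : Submodule (ZMod 2) P.Y) (π : P.Y →ₗ[ZMod 2] E),
      (∀ m : Dual (ZMod 2) E, m ≠ 0 → High P (m ∘ₗ π) Q.X R) ∧
      ∀ x ∈ P.X, ∀ w ∈ Q.X, Q.g (Q.t + w) = 0 → π (P.b (P.t + x) (Q.t + w)) = 0 →
        P.b (P.t + x) (Q.t + w) = 0 := by
  classical
  obtain ⟨N, hN⟩ : ∃ N : Submodule (ZMod 2) (Dual (ZMod 2) P.Y), ∀ l, l ∈ N ↔ Null P Q l := by
    refine ⟨{ carrier := {l | Null P Q l}
              add_mem' := ?_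
              zero_mem' := ?_
              smul_mem' := ?_ }, fun l => Iff.rfl⟩
    · intro l m hl hm x hx w hw
      rw [LinearMap.add_apply, LinearMap.add_apply, hl x hx w hw, hm x hx w hw]
    · intro x _ w _
      rfl
    · intro c l hl x hx w hw
      rw [LinearMap.smul_apply, LinearMap.smul_apply, hl x hx w hw]
  obtain ⟨E, hE⟩ : ∃ E : Submodule (ZMod 2) P.Y, ∀ y, y ∈ E ↔ ∀ l ∈ N, l y = 0 :=
    ⟨N.dualCoannihilator, fun y => Submodule.mem_dualCoannihilator y⟩
  obtain ⟨π, hπ⟩ := LinearMap.exists_leftInverse_of_injective E.subtype (Submodule.ker_subtype E)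
  have hπ' : ∀ e : E, π (e : P.Y) = e := fun e => LinearMap.congr_fun hπ e
  refine ⟨E, π, fun m hm => ?_, fun x hx w hw hQ hz => ?_⟩
  · refine (hp (m ∘ₗ π)).resolve_left fun hn => hm ?_
    have h1 := (hN _).2 hn
    apply LinearMap.ext
    intro e
    have h2 := (hE e).1 e.2 _ h1
    rw [LinearMap.comp_apply, hπ'] at h2
    rw [h2, LinearMap.zero_apply]
  · have hqm := P.qm (P.t + x) (Q.t + w)
    have hg : P.g (Q.t + w) = P.g 0 := hs.2.2 w hw hQ
    have hmem : P.b (P.t + x) (Q.t + w) ∈ E := by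
      rw [hE]
      intro l hl
      have h1 := (hN l).1 hl x hx w hw
      rw [hqm, hg] at h1
      rw [map_add l, map_add l, map_add l] at h1
      have h3 : l (P.g 0) + l (P.g 0) = 0 := CharTwo.add_self_eq_zero _
      linear_combination h1 - h3
    have h4 := hπ' ⟨_, hmem⟩
    rw [hz] at h4
    exact (congrArg Subtype.val h4).symm

end Pool.Agent.H77.FL
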