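import Pool.Agent.H77.FL.CountE
import Pool.Agent.H77.FL.ExPi

/-!
# CountFl: counting flags (about 100 lines)

PROOF. For every pair `p` take `E p`, `π p` from `ex_pi (Q p.1.1) (Q p.1.2)` (`choose`; the
hypotheses are `(hs _ _ p.2).1`, `(hs _ _ p.2).2`). Put
`M = card ((∀ k, (Q k).Y) × (∀ p, E p))`.
* `h2` of `count_e`: if all `g_k (y_k) = 0` and all `π p (..) = 0` then for `i < k` the second part of
  `ex_pi` (with `x = w i`, `w = w k`, `p = ⟨(i, k), _⟩`) gives `(Q i).b (y i) (y k) = 0`.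
* `card (Q i).Y ≤ M`: the map `(Q i).Y → S`, `y ↦ (Pi.single i y, 0)` is injective
  (`Fintype.card_le_of_injective`).
* `M ≤ 2^((d+1)^2 D)`: `Fintype.card_prod`, `Fintype.card_pi`, `card (Q k).Y = 2^finrank ≤ 2^D`
  (`Module.card_eq_pow_finrank`, `ZMod.card`), `card (E p) ≤ card (Q p.1.1).Y ≤ 2^D`
  (`Fintype.card_le_of_injective`), `card (Prs d) ≤ d^2`
  (`Fintype.card_subtype_le`), `Finset.prod_le_pow_card`, and `d D + d^2 D ≤ (d+1)^2 D`.
* `1 ≤ M`: `Fintype.card_pos`.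
-/

set_option autoImplicit false

open Finset Function Module
open scoped BigOperators
open Pool.Agent.H77.KM
open Pool.Agent.H22.QK
open Pool.Agent.H22.QF

namespace Pool.Agent.H77.FL

variable {V : Type} [AddCommGroup V] [Module (ZMod 2) V] [Fintype V]

omit [Fintype V] in
private theorem card_Y (P : Pc V) {D : ℕ} (h : finrank (ZMod 2) P.Y ≤ D) :
    Fintype.card P.Y ≤ 2 ^ D := by
  rw [Module.card_eq_pow_finrank (K := ZMod 2) (V := P.Y), ZMod.card]
  exact Nat.pow_le_pow_right (by norm_num) h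

theorem count_fl {d : ℕ} (Q : Fin d → Pc V) {R D : ℕ}
    (hreg : ∀ k, Reg (pb (Q k).b (Q k).X.subtype) R)
    (hD : ∀ k, finrank (ZMod 2) (Q k).Y ≤ D)
    (hs : ∀ i k, i < k → Sub (Q i) (Q k) ∧ Pair (Q i) (Q k) (2 * R)) :
    ∃ M : ℝ, 1 ≤ M ∧ M ≤ 2 ^ ((d + 1) ^ 2 * D) ∧
      (∀ i, (Fintype.card (Q i).Y : ℝ) ≤ M) ∧
      ∀ (i : Fin d) (τ : (Q i).X → ℝ), (∀ x, |τ x| ≤ 1) →
        |𝔼 w : Om Q, τ (w i) * iv (IsFl Q (yv Q w))
          - (Fintype.card (Q i).Y : ℝ) / M *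
            𝔼 x : (Q i).X, τ x * iv ((Q i).g ((Q i).t + x) = 0)| ≤ (1 / 2) ^ R := by
  have hex : ∀ p : Prs d, ∃ (E : Submodule (ZMod 2) (Q p.1.1).Y) (π : (Q p.1.1).Y →ₗ[ZMod 2] E),
      (∀ m : Dual (ZMod 2) E, m ≠ 0 → High (Q p.1.1) (m ∘ₗ π) (Q p.1.2).X (2 * R)) ∧
      ∀ x ∈ (Q p.1.1).X, ∀ w ∈ (Q p.1.2).X, (Q p.1.2).g ((Q p.1.2).t + w) = 0 →
        π ((Q p.1.1).b ((Q p.1.1).t + x) ((Q p.1.2).t + w)) = 0 →
        (Q p.1.1).b ((Q p.1.1).t + x) ((Q p.1.2).t + w) = 0 := fun p =>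
    ex_pi (Q p.1.1) (Q p.1.2) (hs _ _ p.2).1 (hs _ _ p.2).2
  choose E π h1 h2 using hex
  refine ⟨Fintype.card ((∀ k, (Q k).Y) × (∀ p : Prs d, E p)), ?_, ?_, ?_, ?_⟩
  · have : 0 < Fintype.card ((∀ k, (Q k).Y) × (∀ p : Prs d, E p)) :=
      Fintype.card_pos_iff.2 ⟨0⟩
    exact_mod_cast this
  · have hY : ∀ k, Fintype.card (Q k).Y ≤ 2 ^ D := fun k => card_Y (Q k) (hD k)
    have hE : ∀ p : Prs d, Fintype.card (E p) ≤ 2 ^ D := fun p =>
      (Fintype.card_le_of_injective _ Subtype.val_injective).trans (hY p.1.1)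
    have hP : Fintype.card (Prs d) ≤ d * d := by
      refine (Fintype.card_subtype_le _).trans ?_
      rw [Fintype.card_prod, Fintype.card_fin]
    have h3 : Fintype.card ((∀ k, (Q k).Y) × (∀ p : Prs d, E p)) ≤ 2 ^ ((d + 1) ^ 2 * D) := by
      rw [Fintype.card_prod, Fintype.card_pi, Fintype.card_pi]
      have e1 : ∏ k, Fintype.card (Q k).Y ≤ (2 ^ D) ^ d := by
        have := Finset.prod_le_pow_card (Finset.univ : Finset (Fin d))
          (fun k => Fintype.card (Q k).Y) (2 ^ D) (fun k _ => hY k)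
        rwa [Finset.card_univ, Fintype.card_fin] at this
      have e2 : ∏ p : Prs d, Fintype.card (E p) ≤ (2 ^ D) ^ (d * d) := by
        refine (Finset.prod_le_pow_card (Finset.univ : Finset (Prs d))
          (fun p => Fintype.card (E p)) (2 ^ D) (fun p _ => hE p)).trans ?_
        exact Nat.pow_le_pow_right (Nat.pos_of_ne_zero (by positivity)) hP
      refine (Nat.mul_le_mul e1 e2).trans ?_
      rw [← pow_mul, ← pow_mul, ← pow_add]
      refine Nat.pow_le_pow_right (by norm_num) ?_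
      nlinarith [Nat.zero_le (D * d), Nat.zero_le D]
    exact_mod_cast h3
  · intro i
    have hinj : Function.Injective (fun y : (Q i).Y =>
        ((Pi.single i y, 0) : (∀ k, (Q k).Y) × (∀ p : Prs d, E p))) := by
      intro y y' h
      exact Pi.single_injective i (congrArg Prod.fst h)
    exact_mod_cast Fintype.card_le_of_injective _ hinj
  · intro i τ hτ
    refine count_e Q hreg E π h1 ?_ i τ hτ
    intro w hw hp
    refine ⟨hw, fun i k hik => ?_⟩
    exact h2 ⟨(i, k), hik⟩ (w i) (w i).2 (w k) (w k).2 (hw k) (hp ⟨(i, k), hik⟩)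

end Pool.Agent.H77.FL
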