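import Pool.Agent.H77.FL.Inv

/-!
# Invol: `y_i + u` has the same distribution as `y_i` (about 80 lines)

PROOF. Define `σ : Om Q → Om Q`, `σ w = update w i (w i + ⟨∑ k ∈ T, yv Q w k, _⟩)`; the sum lies in
`(Q i).X` by `yv_mem` (`Submodule.sum_mem`). Since `i ∉ T` (`hT`), `yv Q (σ w) k = yv Q w k` for
`k ∈ T`, so `σ (σ w) = w` (characteristic two: `ZModModule.add_self`), i.e. `σ` is an involution:
`Function.Involutive.toPerm`. Moreover `yv Q (σ w) = update (yv Q w) i (yv Q w i + ∑ ...)`, so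
`fl_inv` gives `IsFl Q (yv Q w) → IsFl Q (yv Q (σ w))`, and the involution gives the equivalence.
Now `Fintype.expect_equiv` (or `Finset.expect_equiv`/`Fintype.sum_equiv`) along `σ`: the right side
evaluated at `σ w` is the left side at `w`, because `yv Q (σ w) i = yv Q w i + ∑ k ∈ T, yv Q w k`.
-/

set_option autoImplicit false

open Finset Function Module
open scoped BigOperators
open Pool.Agent.H77.KM
open Pool.Agent.H22.QK
open Pool.Agent.H22.QF

namespace Pool.Agent.H77.FL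

variable {V : Type} [AddCommGroup V] [Module (ZMod 2) V] [Fintype V]

/-- The involution. -/
private def sg {d : ℕ} (Q : Fin d → Pc V) (hs : ∀ i k, i < k → Sub (Q i) (Q k))
    (i : Fin d) (T : Finset (Fin d)) (hT : ∀ k ∈ T, i < k) (w : Om Q) : Om Q :=
  update w i (w i + ⟨∑ k ∈ T, yv Q w k,
    Submodule.sum_mem _ fun k hk => yv_mem hs w (hT k hk)⟩)

private theorem yv_sg {d : ℕ} (Q : Fin d → Pc V) (hs : ∀ i k, i < k → Sub (Q i) (Q k))
    (i : Fin d) (T : Finset (Fin d)) (hT : ∀ k ∈ T, i < k) (w : Om Q) :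
    yv Q (sg Q hs i T hT w) = update (yv Q w) i (yv Q w i + ∑ k ∈ T, yv Q w k) := by
  ext k
  by_cases hk : k = i
  · subst hk
    rw [update_self]
    unfold yv sg
    rw [update_self, Submodule.coe_add, ← add_assoc]
    rfl
  · rw [update_of_ne hk]
    unfold yv sg
    rw [update_of_ne hk]

private theorem sum_sg {d : ℕ} (Q : Fin d → Pc V) (hs : ∀ i k, i < k → Sub (Q i) (Q k))
    (i : Fin d) (T : Finset (Fin d)) (hT : ∀ k ∈ T, i < k) (w : Om Q) :
    ∑ k ∈ T, yv Q (sg Q hs i T hT w) k = ∑ k ∈ T, yv Q w k := by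
  refine Finset.sum_congr rfl fun k hk => ?_
  rw [yv_sg, update_of_ne (ne_of_gt (hT k hk))]

private theorem sg_sg {d : ℕ} (Q : Fin d → Pc V) (hs : ∀ i k, i < k → Sub (Q i) (Q k))
    (i : Fin d) (T : Finset (Fin d)) (hT : ∀ k ∈ T, i < k) :
    Involutive (sg Q hs i T hT) := by
  intro w
  funext k
  by_cases hk : k = i
  · subst hk
    apply Subtype.ext
    have h1 : (((sg Q hs k T hT (sg Q hs k T hT w)) k : (Q k).X) : V) =
        (((sg Q hs k T hT w) k : (Q k).X) : V) + ∑ l ∈ T, yv Q (sg Q hs k T hT w) l := by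
      conv_lhs => unfold sg
      rw [update_self, Submodule.coe_add]
      rfl
    have h2 : (((sg Q hs k T hT w) k : (Q k).X) : V) = (w k : V) + ∑ l ∈ T, yv Q w l := by
      unfold sg
      rw [update_self, Submodule.coe_add]
    rw [h1, sum_sg, h2, add_assoc, ZModModule.add_self, add_zero]
  · have h1 : (sg Q hs i T hT (sg Q hs i T hT w)) k = (sg Q hs i T hT w) k := by
      conv_lhs => unfold sg
      rw [update_of_ne hk]
      rfl
    have h2 : (sg Q hs i T hT w) k = w k := by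
      unfold sg
      rw [update_of_ne hk]
    rw [h1, h2]

theorem fl_shift {d : ℕ} (Q : Fin d → Pc V) (hs : ∀ i k, i < k → Sub (Q i) (Q k)) (F : V → ℝ)
    (i : Fin d) (T : Finset (Fin d)) (hT : ∀ k ∈ T, i < k) :
    𝔼 w : Om Q, iv (IsFl Q (yv Q w)) * F (yv Q w i + ∑ k ∈ T, yv Q w k)
      = 𝔼 w : Om Q, iv (IsFl Q (yv Q w)) * F (yv Q w i) := by
  classical
  have h1 : ∀ w, IsFl Q (yv Q w) → IsFl Q (yv Q (sg Q hs i T hT w)) := by
    intro w hw
    rw [yv_sg]
    exact fl_inv hs w hw i T hT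
  have h2 : ∀ w, IsFl Q (yv Q w) ↔ IsFl Q (yv Q (sg Q hs i T hT w)) := by
    intro w
    refine ⟨h1 w, fun h => ?_⟩
    have h3 := h1 _ h
    rwa [sg_sg Q hs i T hT w] at h3
  refine Fintype.expect_equiv (sg_sg Q hs i T hT).toPerm _ _ fun w => ?_
  rw [Function.Involutive.coe_toPerm]
  have h3 : yv Q (sg Q hs i T hT w) i = yv Q w i + ∑ k ∈ T, yv Q w k := by
    rw [yv_sg, update_self]
  rw [h3, propext (h2 w)]

end Pool.Agent.H77.FL
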