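import Pool.Agent.H77.FL.OneVec
import Pool.Agent.H77.FL.Invol

/-!
# FlagEx: a good flag exists (about 120 lines)

PROOF. `M` from `count_fl` (regularity `Lev.reg` with `Reg.mono`). Put `S v = A v + iv (v = 0) ≥ 0`.
Suppose that no `w` works: for every `w` there is a nonempty `T` with
`A (∑ k ∈ T, y k) ≠ 0` (so `= 1`) or `∑ k ∈ T, y k = 0`, i.e. `1 ≤ S (∑ k ∈ T, y k)`. Hence
`iv (IsFl) ≤ ∑_{T nonempty} iv (IsFl) * S (∑ k ∈ T, y k)` (`Finset.single_le_sum`; sum over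
`univ.filter Finset.Nonempty`, all terms are nonnegative). Average over `w`
(`Finset.expect_sum_comm`). For `T` nonempty put `i = T.min' _`, `T' = T.erase i`; then
`∑ k ∈ T, y k = y i + ∑ k ∈ T', y k` (`Finset.add_sum_erase`) and `i < k` for `k ∈ T'`, so
`fl_shift` and `one_upper` bound the term by `(1/M) (1/2)^(d+3) + (1/2)^R`. There are at most `2^d` sets
(`Fintype.card_finset`). With `one_lower` (some `i` exists since `1 ≤ d`)
`1/M - 2 (1/2)^R ≤ 2^d ((1/M) (1/2)^(d+3) + (1/2)^R)`. Multiply by `M`, use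
`M (1/2)^R ≤ 2^((d+1)^2 D) (1/2)^R ≤ (1/2)^(d+2)`:
`1 ≤ 1/8 + (2^d + 2) (1/2)^(d+2) ≤ 1/8 + 1/4 + 1/4 < 1`, a contradiction.
-/

set_option autoImplicit false

open Finset Function Module
open scoped BigOperators
open Pool.Agent.H77.KM
open Pool.Agent.H22.QK
open Pool.Agent.H22.QF

namespace Pool.Agent.H77.FL

variable {V : Type} [AddCommGroup V] [Module (ZMod 2) V] [Fintype V]

theorem flag_ex {d : ℕ} (hd : 1 ≤ d) {A : V → ℝ} (hA : ∀ v, A v = 0 ∨ A v = 1) (hA0 : A 0 = 0)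
    (Q : Fin d → Pc V) {D σ R : ℕ} (hl : ∀ k, Lev A d D σ (Q k))
    (hs : ∀ i k, i < k → Sub (Q i) (Q k) ∧ Pair (Q i) (Q k) (2 * R))
    (hR : (d + 1) ^ 2 * D + d + 2 ≤ R) (hσ : R ≤ σ) :
    ∃ y : Fin d → V, ∀ T : Finset (Fin d), T.Nonempty →
      A (∑ k ∈ T, y k) = 0 ∧ ∑ k ∈ T, y k ≠ 0 := by
  classical
  obtain ⟨M, hM1, hMle, hY, hMc⟩ := count_fl Q (R := R) (D := D)
    (fun k => (hl k).reg.mono hσ) (fun k => (hl k).dimY) hs
  by_contra hcon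
  have hM0 : 0 < M := lt_of_lt_of_le one_pos hM1
  set S : V → ℝ := fun v => A v + iv (v = 0) with hS
  have hA' : ∀ v, 0 ≤ A v := by
    intro v
    rcases hA v with h | h <;> rw [h] <;> norm_num
  have hS0 : ∀ v, 0 ≤ S v := fun v => add_nonneg (hA' v) (iv_nonneg _)
  set NE : Finset (Finset (Fin d)) := Finset.univ.filter Finset.Nonempty with hNE
  have hbad : ∀ w : Om Q, ∃ T : Finset (Fin d), T.Nonempty ∧ 1 ≤ S (∑ k ∈ T, yv Q w k) := by
    intro w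
    by_contra hw
    apply hcon
    refine ⟨yv Q w, fun T hT => ?_⟩
    have h1 : ¬ 1 ≤ S (∑ k ∈ T, yv Q w k) := fun h => hw ⟨T, hT, h⟩
    rw [hS] at h1
    simp only at h1
    rcases hA (∑ k ∈ T, yv Q w k) with h | h
    · refine ⟨h, fun h0 => ?_⟩
      apply h1
      rw [iv_pos h0, h]
      norm_num
    · exfalso
      apply h1
      rw [h]
      have := iv_nonneg (∑ k ∈ T, yv Q w k = 0)
      linarith
  have hpt : ∀ w : Om Q, iv (IsFl Q (yv Q w)) ≤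
      ∑ T ∈ NE, iv (IsFl Q (yv Q w)) * S (∑ k ∈ T, yv Q w k) := by
    intro w
    obtain ⟨T, hT, h1⟩ := hbad w
    have h2 : iv (IsFl Q (yv Q w)) ≤ iv (IsFl Q (yv Q w)) * S (∑ k ∈ T, yv Q w k) :=
      le_mul_of_one_le_right (iv_nonneg _) h1
    refine h2.trans ?_
    exact Finset.single_le_sum (f := fun T => iv (IsFl Q (yv Q w)) * S (∑ k ∈ T, yv Q w k))
      (fun T _ => mul_nonneg (iv_nonneg _) (hS0 _))
      (Finset.mem_filter.2 ⟨Finset.mem_univ _, hT⟩)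
  have hterm : ∀ T ∈ NE, 𝔼 w : Om Q, iv (IsFl Q (yv Q w)) * S (∑ k ∈ T, yv Q w k) ≤
      1 / M * (1 / 2) ^ (d + 3) + (1 / 2) ^ R := by
    intro T hT
    have hTn : T.Nonempty := (Finset.mem_filter.1 hT).2
    set i := T.min' hTn with hi
    have hiT : i ∈ T := T.min'_mem hTn
    have h1 : ∀ w : Om Q, ∑ k ∈ T, yv Q w k = yv Q w i + ∑ k ∈ T.erase i, yv Q w k :=
      fun w => (Finset.add_sum_erase T (yv Q w) hiT).symm
    have h2 : ∀ k ∈ T.erase i, i < k := by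
      intro k hk
      have h3 := Finset.mem_erase.1 hk
      exact lt_of_le_of_ne (T.min'_le k h3.2) (Ne.symm h3.1)
    have h4 := fl_shift Q (fun i k hik => (hs i k hik).1) S i (T.erase i) h2
    have h5 := one_upper hA hA0 Q hl hM1 hMc i
    calc 𝔼 w : Om Q, iv (IsFl Q (yv Q w)) * S (∑ k ∈ T, yv Q w k)
        = 𝔼 w : Om Q, iv (IsFl Q (yv Q w)) * S (yv Q w i + ∑ k ∈ T.erase i, yv Q w k) := by
          refine Finset.expect_congr rfl (fun w _ => ?_)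
          rw [h1 w]
      _ = 𝔼 w : Om Q, iv (IsFl Q (yv Q w)) * S (yv Q w i) := h4
      _ ≤ 1 / M * (1 / 2) ^ (d + 3) + (1 / 2) ^ R := h5
  have hup : 𝔼 w : Om Q, iv (IsFl Q (yv Q w)) ≤
      2 ^ d * (1 / M * (1 / 2) ^ (d + 3) + (1 / 2) ^ R) := by
    calc 𝔼 w : Om Q, iv (IsFl Q (yv Q w))
        ≤ 𝔼 w : Om Q, ∑ T ∈ NE, iv (IsFl Q (yv Q w)) * S (∑ k ∈ T, yv Q w k) :=
          Finset.expect_le_expect (fun w _ => hpt w)
      _ = ∑ T ∈ NE, 𝔼 w : Om Q, iv (IsFl Q (yv Q w)) * S (∑ k ∈ T, yv Q w k) := by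
          rw [Finset.expect_sum_comm]
      _ ≤ ∑ _T ∈ NE, (1 / M * (1 / 2) ^ (d + 3) + (1 / 2) ^ R) := Finset.sum_le_sum hterm
      _ = (NE.card : ℝ) * (1 / M * (1 / 2) ^ (d + 3) + (1 / 2) ^ R) := by
          rw [Finset.sum_const, nsmul_eq_mul]
      _ ≤ 2 ^ d * (1 / M * (1 / 2) ^ (d + 3) + (1 / 2) ^ R) := by
          apply mul_le_mul_of_nonneg_right _ (by positivity)
          have h1 : NE.card ≤ 2 ^ d := by
            refine (Finset.card_filter_le _ _).trans ?_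
            rw [Finset.card_univ, Fintype.card_finset, Fintype.card_fin]
          exact_mod_cast h1
  have hlow := one_lower Q hl hσ hM1 hY hMc ⟨0, by omega⟩
  have h1 := hlow.trans hup
  have h2 : M * (1 / 2) ^ R ≤ (1 / 2) ^ (d + 2) := by
    have h3 : (1 / 2 : ℝ) ^ R ≤ (1 / 2) ^ ((d + 1) ^ 2 * D + (d + 2)) :=
      pow_le_pow_of_le_one (by norm_num) (by norm_num) (by omega)
    calc M * (1 / 2) ^ R ≤ 2 ^ ((d + 1) ^ 2 * D) * (1 / 2) ^ ((d + 1) ^ 2 * D + (d + 2)) :=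
          mul_le_mul hMle h3 (by positivity) (by positivity)
      _ = (2 * (1 / 2)) ^ ((d + 1) ^ 2 * D) * (1 / 2) ^ (d + 2) := by
          rw [pow_add, mul_pow]
          ring
      _ = (1 / 2) ^ (d + 2) := by norm_num
  have h4 : M * (1 / M - 2 * (1 / 2) ^ R) ≤
      M * (2 ^ d * (1 / M * (1 / 2) ^ (d + 3) + (1 / 2) ^ R)) :=
    mul_le_mul_of_nonneg_left h1 hM0.le
  have h5 : M * (1 / M - 2 * (1 / 2) ^ R) = 1 - 2 * (M * (1 / 2) ^ R) := by
    field_simp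
  have h6 : M * (2 ^ d * (1 / M * (1 / 2) ^ (d + 3) + (1 / 2) ^ R)) =
      2 ^ d * (1 / 2) ^ (d + 3) + 2 ^ d * (M * (1 / 2) ^ R) := by
    field_simp
  have h7 : (2 : ℝ) ^ d * (1 / 2) ^ (d + 3) = 1 / 8 := by
    rw [pow_add, ← mul_assoc, ← mul_pow]
    norm_num
  have h8 : (2 : ℝ) ^ d * (1 / 2) ^ (d + 2) = 1 / 4 := by
    rw [pow_add, ← mul_assoc, ← mul_pow]
    norm_num
  have h9 : (1 / 2 : ℝ) ^ (d + 2) ≤ 1 / 8 := by
    calc (1 / 2 : ℝ) ^ (d + 2) ≤ (1 / 2) ^ 3 :=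
          pow_le_pow_of_le_one (by norm_num) (by norm_num) (by omega)
      _ = 1 / 8 := by norm_num
  have h10 : (2 : ℝ) ^ d * (M * (1 / 2) ^ R) ≤ 1 / 4 := by
    rw [← h8]
    exact mul_le_mul_of_nonneg_left h2 (by positivity)
  rw [h5, h6, h7] at h4
  linarith

end Pool.Agent.H77.FL
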