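import Pool.Agent.H77.FL.Defs

/-!
# Inv: invariance of the flag equations (about 130 lines, only algebra in characteristic two)

`hs`: all pairs `i < k` satisfy `Sub (Q i) (Q k)`. Write `y k = yv Q w k = t_k + w_k`.

`yv_mem`: `t_k ∈ X_i` and `w_k ∈ X_k ≤ X_i`.

`fl_g`: `Q_k.g (y k) = 0` (first part of `IsFl`), so the third part of `Sub` (with `x = w_k`) gives
`Q_i.g (y k) = Q_i.g 0`.

`fl_b`: for `i < k < l`. `y_l ∈ X_k` by `yv_mem`, so `y_k + y_l = t_k + (w_k + y_l)` with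
`w_k + y_l ∈ X_k`. `Q_k.g (y_k + y_l) = Q_k.g y_k + Q_k.g y_l + Q_k.g 0 + Q_k.b y_k y_l
= 0 + Q_k.g 0 + Q_k.g 0 + 0 = 0` (`fl_g` for `k < l`, second part of `IsFl`). Hence by `Sub (Q i) (Q k)`
`Q_i.g (y_k + y_l) = Q_i.g 0`. Expand the left side: `Q_i.g y_k = Q_i.g 0`, `Q_i.g y_l = Q_i.g 0`
(`fl_g`), so `Q_i.g 0 + Q_i.g 0 + Q_i.g 0 + Q_i.b y_k y_l = Q_i.g 0`, i.e. `Q_i.b y_k y_l = 0`.

`fl_sum`: induction on `T` (`Finset.induction_on`, statement for all `T` with `∀ k ∈ T, i < k`):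
`Q_i.g (y_k + u) = Q_i.g y_k + Q_i.g u + Q_i.g 0 + Q_i.b y_k u`, and
`Q_i.b y_k u = ∑ l ∈ T, Q_i.b y_k y_l = 0` (`fl_b`, for `k < l` and, with the symmetry
`IsQM.symm`, for `l < k`; here `k ∉ T`).

`fl_inv`: let `u = ∑ k ∈ T, y k`, `y' = update y i (y i + u)`. Equations of `y'`:
* `Q_i.g (y_i + u) = Q_i.g y_i + Q_i.g u + Q_i.g 0 + Q_i.b y_i u = 0` by `fl_sum` and
  `Q_i.b y_i u = ∑ k ∈ T, Q_i.b y_i y_k = 0` (second part of `IsFl`); other `k` unchanged;
* pairs `j < k` with `j ≠ i`, `k ≠ i`: unchanged;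
* pairs `(i, l)`: `Q_i.b (y_i + u) y_l = Q_i.b y_i y_l + ∑ k ∈ T, Q_i.b y_k y_l`; terms `k ≠ l`
  vanish by `fl_b` (and `IsQM.symm`), the term `k = l` by `IsQM.self_zero`;
* pairs `(j, i)` with `j < i`: `Q_j.b y_j (y_i + u) = Q_j.b y_j y_i + ∑ k ∈ T, Q_j.b y_j y_k = 0`
  (`j < i < k`).
-/

set_option autoImplicit false

open Finset Function Module
open scoped BigOperators
open Pool.Agent.H77.KM
open Pool.Agent.H22.QK
open Pool.Agent.H22.QF

namespace Pool.Agent.H77.FL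

variable {V : Type} [AddCommGroup V] [Module (ZMod 2) V]

theorem yv_mem {d : ℕ} {Q : Fin d → Pc V} (hs : ∀ i k, i < k → Sub (Q i) (Q k)) (w : Om Q)
    {i k : Fin d} (h : i < k) : yv Q w k ∈ (Q i).X := by
  obtain ⟨h1, h2, _⟩ := hs i k h
  exact (Q i).X.add_mem h1 (h2 (w k).2)

theorem fl_g {d : ℕ} {Q : Fin d → Pc V} (hs : ∀ i k, i < k → Sub (Q i) (Q k)) (w : Om Q)
    (hf : IsFl Q (yv Q w)) {i k : Fin d} (h : i < k) : (Q i).g (yv Q w k) = (Q i).g 0 :=
  (hs i k h).2.2 (w k) (w k).2 (hf.1 k)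

theorem fl_b {d : ℕ} {Q : Fin d → Pc V} (hs : ∀ i k, i < k → Sub (Q i) (Q k)) (w : Om Q)
    (hf : IsFl Q (yv Q w)) {i k l : Fin d} (h : i < k) (h' : k < l) :
    (Q i).b (yv Q w k) (yv Q w l) = 0 := by
  have hmem : ((w k : V) + yv Q w l) ∈ (Q k).X := (Q k).X.add_mem (w k).2 (yv_mem hs w h')
  have hsum : (Q k).t + ((w k : V) + yv Q w l) = yv Q w k + yv Q w l := by
    rw [← add_assoc]
    rfl
  have hk : (Q k).g ((Q k).t + ((w k : V) + yv Q w l)) = 0 := by
    rw [hsum, (Q k).qm, hf.1 k, fl_g hs w hf h', hf.2 k l h', zero_add, add_zero,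
      ZModModule.add_self]
  have hi := (hs i k h).2.2 _ hmem hk
  rw [hsum, (Q i).qm, fl_g hs w hf h, fl_g hs w hf (h.trans h'), ZModModule.add_self,
    zero_add] at hi
  exact add_eq_left.1 hi

/-- The form of the level `i` vanishes on all pairs of newer vectors. -/
private lemma fl_b' {d : ℕ} {Q : Fin d → Pc V} (hs : ∀ i k, i < k → Sub (Q i) (Q k)) (w : Om Q)
    (hf : IsFl Q (yv Q w)) {i k l : Fin d} (h : i < k) (h' : i < l) (hkl : k ≠ l) :
    (Q i).b (yv Q w k) (yv Q w l) = 0 := by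
  rcases lt_or_gt_of_ne hkl with h1 | h1
  · exact fl_b hs w hf h h1
  · rw [(Q i).qm.symm]
    exact fl_b hs w hf h' h1

theorem fl_sum {d : ℕ} {Q : Fin d → Pc V} (hs : ∀ i k, i < k → Sub (Q i) (Q k)) (w : Om Q)
    (hf : IsFl Q (yv Q w)) (i : Fin d) (T : Finset (Fin d)) (hT : ∀ k ∈ T, i < k) :
    (Q i).g (∑ k ∈ T, yv Q w k) = (Q i).g 0 := by
  classical
  induction T using Finset.induction_on with
  | empty => rw [Finset.sum_empty]
  | insert k T hk ih =>
    have hik : i < k := hT k (Finset.mem_insert_self k T)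
    have hT' : ∀ l ∈ T, i < l := fun l hl => hT l (Finset.mem_insert_of_mem hl)
    rw [Finset.sum_insert hk, (Q i).qm, ih hT', fl_g hs w hf hik, map_sum,
      Finset.sum_eq_zero, add_zero, ZModModule.add_self, zero_add]
    intro l hl
    exact fl_b' hs w hf hik (hT' l hl) (fun e => hk (e ▸ hl))

theorem fl_inv {d : ℕ} {Q : Fin d → Pc V} (hs : ∀ i k, i < k → Sub (Q i) (Q k)) (w : Om Q)
    (hf : IsFl Q (yv Q w)) (i : Fin d) (T : Finset (Fin d)) (hT : ∀ k ∈ T, i < k) :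
    IsFl Q (update (yv Q w) i (yv Q w i + ∑ k ∈ T, yv Q w k)) := by
  classical
  refine ⟨?_, ?_⟩
  · intro k
    by_cases hki : k = i
    · subst hki
      rw [update_self, (Q k).qm, hf.1 k, fl_sum hs w hf k T hT, map_sum, Finset.sum_eq_zero,
        zero_add, add_zero, ZModModule.add_self]
      intro l hl
      exact hf.2 k l (hT l hl)
    · rw [update_of_ne hki]
      exact hf.1 k
  · intro j k hjk
    by_cases hji : j = i
    · subst hji
      rw [update_self, update_of_ne (ne_of_gt hjk), map_add, LinearMap.add_apply, hf.2 j k hjk,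
        zero_add, map_sum, LinearMap.sum_apply]
      apply Finset.sum_eq_zero
      intro l hl
      by_cases hlk : l = k
      · subst hlk
        exact (Q j).qm.self_zero _
      · exact fl_b' hs w hf (hT l hl) hjk hlk
    · by_cases hki : k = i
      · subst hki
        rw [update_self, update_of_ne hji, map_add, hf.2 j k hjk, zero_add, map_sum]
        apply Finset.sum_eq_zero
        intro l hl
        exact hf.2 j l (hjk.trans (hT l hl))
      · rw [update_of_ne hji, update_of_ne hki]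
        exact hf.2 j k hjk

end Pool.Agent.H77.FL
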