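import Pool.Agent.H77.FL.RegTr

/-!
# NewLev: a sparse piece of the base gives a new level (about 140 lines)

PROOF. Unfold `QDense`, `push Not`: there are `W'`, `Z`, `f : W' →ₗ B.X` injective of codimension at
most `κ`, `finrank Z ≤ ρ`, `w0 : B.X`, `h : W' → Z`, `c` with
`hq : IsQM (fun w => (B.g (w0 + f w), h w)) c`, `Reg c σ` and
`card B.Y * card Z * 𝔼 w, A (w0 + f w) * iv (B.g (w0 + f w) = 0) * iv (h w = 0) < (1/2)^s`.
Put `f' = B.X.subtype ∘ₗ f : W' →ₗ V` (injective), `t = (w0 : V)`, and let `p : V →ₗ W'` be a left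
inverse of `f'` (`LinearMap.exists_leftInverse_of_injective`). `h` is quadratic with polarisation
`c2 = c.compr₂ (LinearMap.snd _ _ _)` (`IsQM.map`), so `v ↦ h (p v)` is quadratic on `V` with
polarisation `pb c2 p` (`IsQM.pull` with `w0 = 0`) and so is `v ↦ h (p (t + v))` (`IsQM.shift`).
New level: `N = { t := t, X := range f', Y := B.Y × Z, g := fun v => (B.g v, h (p (t + v))),
b := bpair B.b (pb c2 p), qm := B.qm.pair _ }`.
* `N.g (t + f' w) = (B.g (t + f' w), h w)` because `t + (t + f' w) = f' w` (`ZModModule.add_self`) and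
  `p (f' w) = w`.
* dimensions: `finrank (range f') = finrank W'` (`LinearMap.finrank_range_of_inj`),
  `Module.finrank_prod`.
* `Reg`: `pb N.b f' = c`: both are the polarisation of the map `w ↦ N.g (t + f' w)`
  (`IsQM` determines the polarisation: `c x y = G (x+y) + G x + G y + G 0`; `N.qm.pull f' t` is an
  `IsQM` for `pb N.b f'`). Then `reg_range`.
* `Sparse`: `expect_range` for `F v = A (t + v) * iv (N.g (t + v) = 0)`;
  `iv (N.g (t + f' w) = 0) = iv (B.g (..) = 0) * iv (h w = 0)` (`Prod.mk_eq_zero`, `iv_and`);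
  `card (B.Y × Z) = card B.Y * card Z`. Note that `((w0 + f w : B.X) : V) = t + f' w`.
* if `N.g v = 0` then `B.g v = 0` (first component); if `N.g v = N.g 0` then `B.g v = B.g 0 = 0`.
-/

set_option autoImplicit false

open Finset Function Module
open scoped BigOperators
open Pool.Agent.H77.KM
open Pool.Agent.H22.QK
open Pool.Agent.H22.QF

namespace Pool.Agent.H77.FL

variable {V : Type} [AddCommGroup V] [Module (ZMod 2) V] [Fintype V]

theorem new_lev (B : Pc V) (hB : B.g 0 = 0) (A : V → ℝ) {κ ρ σ s : ℕ}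
    (h : ¬ QDense (fun w : B.X => A w) (fun w : B.X => B.g w) κ ρ σ s) :
    ∃ N : Pc V, N.t ∈ B.X ∧ N.X ≤ B.X ∧ finrank (ZMod 2) B.X ≤ finrank (ZMod 2) N.X + κ ∧
      finrank (ZMod 2) N.Y ≤ finrank (ZMod 2) B.Y + ρ ∧ Reg (pb N.b N.X.subtype) σ ∧
      Sparse A N s ∧ (∀ v, N.g v = 0 → B.g v = 0) ∧ ∀ v, N.g v = N.g 0 → B.g v = 0 := by
  classical
  unfold QDense at h
  push Not at h
  obtain ⟨W, Z, iW1, iW2, iW3, iZ1, iZ2, iZ3, f, hf, hκ, hρ, w0, h, c, hq, hreg, hlt⟩ := h
  obtain ⟨f', hf'⟩ : ∃ f' : W →ₗ[ZMod 2] V, ∀ w, f' w = (f w : V) :=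
    ⟨B.X.subtype ∘ₗ f, fun w => rfl⟩
  have hinj : Injective f' := by
    intro x y hxy
    apply hf
    apply Subtype.ext
    rw [← hf', ← hf', hxy]
  obtain ⟨p, hp⟩ := LinearMap.exists_leftInverse_of_injective f' (LinearMap.ker_eq_bot.2 hinj)
  have hpf : ∀ w, p (f' w) = w := fun w => LinearMap.congr_fun hp w
  have hh : IsQM h (c.compr₂ (LinearMap.snd (ZMod 2) B.Y Z)) :=
    hq.map (LinearMap.snd (ZMod 2) B.Y Z)
  have hh1 : IsQM (fun v => h (0 + p v)) (pb (c.compr₂ (LinearMap.snd (ZMod 2) B.Y Z)) p) :=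
    hh.pull p 0
  have hh3 : IsQM (fun v => h (p ((w0 : V) + v)))
      (pb (c.compr₂ (LinearMap.snd (ZMod 2) B.Y Z)) p) := by
    have hh2 := hh1.shift (w0 : V)
    simpa only [zero_add] using hh2
  let N : Pc V :=
    { t := (w0 : V)
      X := LinearMap.range f'
      Y := B.Y × Z
      g := fun v => (B.g v, h (p ((w0 : V) + v)))
      b := bpair B.b (pb (c.compr₂ (LinearMap.snd (ZMod 2) B.Y Z)) p)
      qm := B.qm.pair hh3 }
  have hNg : ∀ w, N.g ((w0 : V) + f' w) = (B.g ((w0 : V) + f' w), h w) := by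
    intro w
    show (B.g ((w0 : V) + f' w), h (p ((w0 : V) + ((w0 : V) + f' w)))) = _
    rw [← add_assoc, ZModModule.add_self, zero_add, hpf]
  have hcoe : ∀ w, ((w0 + f w : B.X) : V) = (w0 : V) + f' w := fun w => by
    rw [Submodule.coe_add, hf']
  have hNg' : ∀ w, N.g ((w0 : V) + f' w) = (B.g ((w0 + f w : B.X) : V), h w) := fun w => by
    rw [hNg, hcoe]
  have hpb : pb N.b f' = c := by
    have h1 := N.qm.pull f' (w0 : V)
    apply LinearMap.ext
    intro x
    apply LinearMap.ext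
    intro y
    have h2 := h1 x y
    have h3 := hq x y
    simp only [hNg'] at h2
    exact (add_left_cancel (h3.symm.trans h2)).symm
  refine ⟨N, w0.2, ?_, ?_, ?_, ?_, ?_, ?_, ?_⟩
  · rintro v ⟨w, rfl⟩
    rw [hf']
    exact (f w).2
  · have h1 : finrank (ZMod 2) N.X = finrank (ZMod 2) W := LinearMap.finrank_range_of_inj hinj
    rw [h1]
    exact hκ
  · have h1 : finrank (ZMod 2) N.Y = finrank (ZMod 2) B.Y + finrank (ZMod 2) Z :=
      Module.finrank_prod
    rw [h1]
    exact Nat.add_le_add_left hρ _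
  · apply reg_range N.b f' hinj
    rw [hpb]
    exact hreg
  · show (Fintype.card (B.Y × Z) : ℝ) *
      𝔼 x : LinearMap.range f', A ((w0 : V) + x) * iv (N.g ((w0 : V) + x) = 0) < (1 / 2) ^ s
    rw [expect_range f' hinj (fun v => A ((w0 : V) + v) * iv (N.g ((w0 : V) + v) = 0)),
      Fintype.card_prod, Nat.cast_mul]
    have h1 : (𝔼 w, A ((w0 : V) + f' w) * iv (N.g ((w0 : V) + f' w) = 0)) =
        𝔼 w, A ((w0 + f w : B.X) : V) * iv (B.g ((w0 + f w : B.X) : V) = 0) * iv (h w = 0) := by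
      apply Finset.expect_congr rfl
      intro w _
      rw [hNg', hcoe, mul_assoc, ← iv_and]
      congr 1
      exact iv_congr Prod.mk_eq_zero
    rw [h1]
    exact hlt
  · intro v hv
    exact (Prod.mk_eq_zero.1 hv).1
  · intro v hv
    have h1 : B.g v = B.g 0 := congrArg Prod.fst hv
    rw [h1, hB]

end Pool.Agent.H77.FL
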