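import Pool.Agent.H77.FL.CountFl

/-!
# OneVec: bounds for one vector of a random flag (about 120 lines)

`M` is any number as in `count_fl` (the properties are hypotheses here).

PROOF of `one_upper`. Put `τ x = A (t_i + x) + iv (t_i + x = 0)`; since `A 0 = 0` and `A` has values in
`{0, 1}`, `τ` has values in `{0, 1}`. By `hM`
`𝔼 w, τ (w i) iv (IsFl) ≤ (|Y_i|/M) 𝔼 x, τ x iv (g (t_i + x) = 0) + (1/2)^R`. The `A`-part of
`|Y_i| 𝔼 ..` is less than `(1/2)^(d+4)` (`Lev.sp`). The other part is at most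
`|Y_i| 𝔼 x, iv (t_i + x = 0) ≤ |Y_i| / |X_i| ≤ 2^(D - finrank X_i) ≤ (1/2)^(d+4)` (at most one `x`;
`Lev.dimY`, `Lev.dimX`, `Module.card_eq_pow_finrank`). Together `(1/M) (1/2)^(d+3) + (1/2)^R`.

PROOF of `one_lower`. `hM` with `τ = 1` (for any `i`):
`𝔼 w, iv (IsFl) ≥ (|Y_i|/M) 𝔼 x, iv (g (t_i + x) = 0) - (1/2)^R`, and by `count_zero` (QK/QCount, for
`(Q i).qm.pull (Q i).X.subtype (Q i).t` and `Lev.reg`)
`𝔼 x, iv (g (t_i+x) = 0) ≥ 1/|Y_i| - (1/2)^σ`; as `|Y_i| ≤ M` and `R ≤ σ` the result is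
`≥ 1/M - 2 (1/2)^R`.
-/

set_option autoImplicit false

open Finset Function Module
open scoped BigOperators
open Pool.Agent.H77.KM
open Pool.Agent.H22.QK
open Pool.Agent.H22.QF

namespace Pool.Agent.H77.FL

variable {V : Type} [AddCommGroup V] [Module (ZMod 2) V] [Fintype V]

private theorem card_pow (W : Type) [AddCommGroup W] [Module (ZMod 2) W] [Fintype W] :
    (Fintype.card W : ℝ) = 2 ^ finrank (ZMod 2) W := by
  have h := Module.card_eq_pow_finrank (K := ZMod 2) (V := W)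
  rw [ZMod.card] at h
  exact_mod_cast h

/-- The zero vector has small normalised density. -/
private theorem zero_dens {A : V → ℝ} {d D σ : ℕ} {P : Pc V} (h : Lev A d D σ P) :
    (Fintype.card P.Y : ℝ) * 𝔼 x : P.X, iv (P.t + x = 0) ≤ (1 / 2) ^ (d + 4) := by
  classical
  have h1 : ∑ x : P.X, iv (P.t + (x : V) = 0) ≤ 1 := by
    by_cases hex : ∃ x0 : P.X, P.t + (x0 : V) = 0
    · obtain ⟨x0, hx0⟩ := hex
      rw [Finset.sum_eq_single x0]
      · exact iv_le_one _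
      · intro x _ hx
        refine iv_neg fun h0 => hx ?_
        exact Subtype.ext (add_left_cancel (h0.trans hx0.symm))
      · intro h0
        exact absurd (Finset.mem_univ _) h0
    · rw [Finset.sum_eq_zero]
      · norm_num
      · intro x _
        exact iv_neg fun h0 => hex ⟨x, h0⟩
  have h2 : (0 : ℝ) < Fintype.card P.X := by exact_mod_cast Fintype.card_pos
  rw [Finset.expect_eq_sum_div_card, Finset.card_univ, card_pow P.Y, card_pow P.X]
  have h3 : (2 : ℝ) ^ finrank (ZMod 2) P.Y * ((∑ x : P.X, iv (P.t + (x : V) = 0)) /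
      2 ^ finrank (ZMod 2) P.X) ≤ 2 ^ finrank (ZMod 2) P.Y * (1 / 2 ^ finrank (ZMod 2) P.X) := by
    gcongr
  refine h3.trans ?_
  have h4 : finrank (ZMod 2) P.Y + (d + 4) ≤ finrank (ZMod 2) P.X := by
    have := h.dimY
    have := h.dimX
    omega
  rw [mul_one_div, div_le_iff₀ (by positivity), one_div, inv_pow, inv_mul_eq_div,
    le_div_iff₀ (by positivity), ← pow_add]
  exact pow_le_pow_right₀ (by norm_num) h4

theorem one_upper {d : ℕ} {A : V → ℝ} (hA : ∀ v, A v = 0 ∨ A v = 1) (hA0 : A 0 = 0)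
    (Q : Fin d → Pc V) {D σ R : ℕ} (hl : ∀ k, Lev A d D σ (Q k)) {M : ℝ} (h1 : 1 ≤ M)
    (hM : ∀ (i : Fin d) (τ : (Q i).X → ℝ), (∀ x, |τ x| ≤ 1) →
        |𝔼 w : Om Q, τ (w i) * iv (IsFl Q (yv Q w))
          - (Fintype.card (Q i).Y : ℝ) / M *
            𝔼 x : (Q i).X, τ x * iv ((Q i).g ((Q i).t + x) = 0)| ≤ (1 / 2) ^ R) (i : Fin d) :
    𝔼 w : Om Q, iv (IsFl Q (yv Q w)) * (A (yv Q w i) + iv (yv Q w i = 0))
      ≤ 1 / M * (1 / 2) ^ (d + 3) + (1 / 2) ^ R := by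
  classical
  have hM0 : (0 : ℝ) < M := lt_of_lt_of_le one_pos h1
  set τ : (Q i).X → ℝ := fun x => A ((Q i).t + x) + iv ((Q i).t + (x : V) = 0) with hτ
  have hτ1 : ∀ x, |τ x| ≤ 1 := by
    intro x
    rw [hτ]
    show |A ((Q i).t + x) + iv ((Q i).t + (x : V) = 0)| ≤ 1
    by_cases h0 : (Q i).t + (x : V) = 0
    · rw [iv_pos h0, h0, hA0]
      norm_num
    · rw [iv_neg h0]
      rcases hA ((Q i).t + x) with h | h <;> rw [h] <;> norm_num
  have h2 := hM i τ hτ1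
  have h3 : 𝔼 w : Om Q, iv (IsFl Q (yv Q w)) * (A (yv Q w i) + iv (yv Q w i = 0))
      = 𝔼 w : Om Q, τ (w i) * iv (IsFl Q (yv Q w)) :=
    Finset.expect_congr rfl fun w _ => mul_comm _ _
  rw [h3]
  have h4 := (abs_le.1 h2).2
  have h5 : (Fintype.card (Q i).Y : ℝ) *
      𝔼 x : (Q i).X, τ x * iv ((Q i).g ((Q i).t + x) = 0) ≤ (1 / 2) ^ (d + 3) := by
    have e1 : 𝔼 x : (Q i).X, τ x * iv ((Q i).g ((Q i).t + x) = 0)
        ≤ 𝔼 x : (Q i).X, A ((Q i).t + x) * iv ((Q i).g ((Q i).t + x) = 0)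
          + 𝔼 x : (Q i).X, iv ((Q i).t + (x : V) = 0) := by
      rw [← Finset.expect_add_distrib]
      refine Finset.expect_le_expect fun x _ => ?_
      rw [hτ]
      show (A ((Q i).t + x) + iv ((Q i).t + (x : V) = 0)) * iv ((Q i).g ((Q i).t + x) = 0) ≤ _
      rw [add_mul]
      have e2 := iv_nonneg ((Q i).t + (x : V) = 0)
      have e3 := iv_le_one ((Q i).g ((Q i).t + x) = 0)
      nlinarith
    have e4 := (hl i).sp
    unfold Sparse at e4
    have e5 := zero_dens (hl i)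
    have e6 : (0 : ℝ) ≤ Fintype.card (Q i).Y := by positivity
    calc (Fintype.card (Q i).Y : ℝ) *
        𝔼 x : (Q i).X, τ x * iv ((Q i).g ((Q i).t + x) = 0)
        ≤ (Fintype.card (Q i).Y : ℝ) *
          (𝔼 x : (Q i).X, A ((Q i).t + x) * iv ((Q i).g ((Q i).t + x) = 0)
            + 𝔼 x : (Q i).X, iv ((Q i).t + (x : V) = 0)) :=
          mul_le_mul_of_nonneg_left e1 e6
      _ ≤ (1 / 2) ^ (d + 4) + (1 / 2) ^ (d + 4) := by
          rw [mul_add]
          exact add_le_add e4.le e5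
      _ = (1 / 2) ^ (d + 3) := by
          rw [show d + 4 = (d + 3) + 1 from rfl, pow_succ]
          ring
  have h6 : (Fintype.card (Q i).Y : ℝ) / M *
      𝔼 x : (Q i).X, τ x * iv ((Q i).g ((Q i).t + x) = 0) ≤ 1 / M * (1 / 2) ^ (d + 3) := by
    have e1 : (Fintype.card (Q i).Y : ℝ) / M *
        𝔼 x : (Q i).X, τ x * iv ((Q i).g ((Q i).t + x) = 0)
        = 1 / M * ((Fintype.card (Q i).Y : ℝ) *
          𝔼 x : (Q i).X, τ x * iv ((Q i).g ((Q i).t + x) = 0)) := by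
      rw [← mul_assoc, one_div_mul_eq_div]
    rw [e1]
    exact mul_le_mul_of_nonneg_left h5 (by positivity)
  linarith

theorem one_lower {d : ℕ} {A : V → ℝ} (Q : Fin d → Pc V) {D σ R : ℕ}
    (hl : ∀ k, Lev A d D σ (Q k)) (hR : R ≤ σ) {M : ℝ} (h1 : 1 ≤ M)
    (hY : ∀ i, (Fintype.card (Q i).Y : ℝ) ≤ M)
    (hM : ∀ (i : Fin d) (τ : (Q i).X → ℝ), (∀ x, |τ x| ≤ 1) →
        |𝔼 w : Om Q, τ (w i) * iv (IsFl Q (yv Q w))
          - (Fintype.card (Q i).Y : ℝ) / M *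
            𝔼 x : (Q i).X, τ x * iv ((Q i).g ((Q i).t + x) = 0)| ≤ (1 / 2) ^ R) (i : Fin d) :
    1 / M - 2 * (1 / 2) ^ R ≤ 𝔼 w : Om Q, iv (IsFl Q (yv Q w)) := by
  classical
  have hM0 : (0 : ℝ) < M := lt_of_lt_of_le one_pos h1
  have hc : (0 : ℝ) < Fintype.card (Q i).Y := by exact_mod_cast Fintype.card_pos
  have h2 := hM i (fun _ => 1) (fun _ => by simp)
  simp only [one_mul] at h2
  have h3 := (abs_le.1 h2).1
  have hq : IsQM (fun x : (Q i).X => (Q i).g ((Q i).t + (Q i).X.subtype x))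
      (pb (Q i).b (Q i).X.subtype) := (Q i).qm.pull (Q i).X.subtype (Q i).t
  have h4 := (abs_le.1 (count_zero hq (hl i).reg)).1
  have h5 : 1 / (Fintype.card (Q i).Y : ℝ) - (1 / 2) ^ σ
      ≤ 𝔼 x : (Q i).X, iv ((Q i).g ((Q i).t + x) = 0) := by
    have e : 𝔼 x : (Q i).X, iv ((Q i).g ((Q i).t + (Q i).X.subtype x) = 0)
        = 𝔼 x : (Q i).X, iv ((Q i).g ((Q i).t + x) = 0) := rfl
    rw [e] at h4
    linarith
  have h6 : (1 / 2 : ℝ) ^ σ ≤ (1 / 2) ^ R := pow_le_pow_of_le_one (by norm_num) (by norm_num) hR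
  have h7 : 1 / M - (1 / 2) ^ R ≤ (Fintype.card (Q i).Y : ℝ) / M *
      𝔼 x : (Q i).X, iv ((Q i).g ((Q i).t + x) = 0) := by
    have e1 : (Fintype.card (Q i).Y : ℝ) / M * (1 / (Fintype.card (Q i).Y : ℝ) - (1 / 2) ^ R)
        ≤ (Fintype.card (Q i).Y : ℝ) / M *
          𝔼 x : (Q i).X, iv ((Q i).g ((Q i).t + x) = 0) :=
      mul_le_mul_of_nonneg_left (by linarith) (by positivity)
    refine le_trans ?_ e1
    rw [mul_sub]
    have e2 : (Fintype.card (Q i).Y : ℝ) / M * (1 / (Fintype.card (Q i).Y : ℝ)) = 1 / M := by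
      field_simp
    have e3 : (Fintype.card (Q i).Y : ℝ) / M ≤ 1 := (div_le_one hM0).2 (hY i)
    have e4 : (Fintype.card (Q i).Y : ℝ) / M * (1 / 2) ^ R ≤ 1 * (1 / 2) ^ R :=
      mul_le_mul_of_nonneg_right e3 (by positivity)
    rw [e2]
    linarith
  linarith

end Pool.Agent.H77.FL
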