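import Pool.Agent.H77.FL.Defs

/-!
# PhSplit: the phase as a function of two coordinates (about 130 lines)

`p = (j, k)` with `j < k`. Put `U x y = update (update w j x) k y`. CLAIM (characteristic two):
`ph (U x y) = ph (U x 0) + ph (U 0 y) + ph (U 0 0) + m_p (Q_j.b x y)`.

PROOF. `ph` is a sum of terms; it is enough to prove `T (U x y) + T (U x 0) + T (U 0 y) + T (U 0 0)
= 0` for every term `T` except `T = m_p (Q_j.b (y_j) (y_k))`, for which the sum is
`m_p (Q_j.b x y)` (bilinearity: `yv Q (U x y) j = t_j + x`, `yv Q (U x y) k = t_k + y`, and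
`B(a+x, c+y) + B(a+x, c) + B(a, c+y) + B(a, c) = B(x, y)`).
* If `T w` does not depend on the coordinate `j` then `T (U x y) = T (U 0 y)` and
  `T (U x 0) = T (U 0 0)`, so the sum is zero (`ZModModule.add_self` / `CharTwo.add_self_eq_zero`);
  in the same way if it does not depend on the coordinate `k`.
* `l_i (Q_i.g (yv Q w i))` depends only on the coordinate `i`, which is different from `j` or from
  `k`; the term of a pair `q ≠ p` depends only on the coordinates `q.1.1 < q.1.2`, and `q ≠ p` implies
  that `j` or `k` is not among them (if both are, then `q.1 = (j, k)` by the order).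
Useful lemma: `yv Q (update w j x) i = yv Q w i` for `i ≠ j` and `yv Q (update w j x) j = t_j + x`.
Sum up with `Finset.sum_add_distrib` and `Finset.sum_eq_single p`. (One can prove the statement in
the form `ph .. + ph .. + ph .. + ph .. = m_p ..` first.)
-/

set_option autoImplicit false

open Finset Function Module
open scoped BigOperators
open Pool.Agent.H77.KM
open Pool.Agent.H22.QK
open Pool.Agent.H22.QF

namespace Pool.Agent.H77.FL

variable {V : Type} [AddCommGroup V] [Module (ZMod 2) V]

theorem yv_update_ne {d : ℕ} (Q : Fin d → Pc V) (w : Om Q) {i j : Fin d} (x : (Q j).X)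
    (h : i ≠ j) : yv Q (update w j x) i = yv Q w i := by
  unfold yv
  rw [update_of_ne h]

theorem yv_update_self {d : ℕ} (Q : Fin d → Pc V) (w : Om Q) (j : Fin d) (x : (Q j).X) :
    yv Q (update w j x) j = (Q j).t + (x : V) := by
  unfold yv
  rw [update_self]

private lemma z2_self (a : ZMod 2) : a + a = 0 := by
  revert a; decide

/-- A term which does not depend on the first coordinate. -/
private lemma z2_four {a b c e : ZMod 2} (h1 : a = c) (h2 : b = e) : a + b + c + e = 0 := by
  subst h1 h2
  revert a b; decide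

private lemma z2_four' {a b c e : ZMod 2} (h1 : a = b) (h2 : c = e) : a + b + c + e = 0 := by
  subst h1 h2
  revert a c; decide

private lemma z2_bil {a b c e m : ZMod 2} (h : a + b + c + e = m) : a = b + c + e + m := by
  subst h
  revert a b c e; decide

theorem ph_split {d : ℕ} (Q : Fin d → Pc V) (l : ∀ k, Dual (ZMod 2) (Q k).Y)
    (m : ∀ p : Prs d, Dual (ZMod 2) (Q p.1.1).Y) (p : Prs d) (w : Om Q) (x : (Q p.1.1).X)
    (y : (Q p.1.2).X) :
    ph Q l m (update (update w p.1.1 x) p.1.2 y)
      = ph Q l m (update (update w p.1.1 x) p.1.2 0) + ph Q l m (update (update w p.1.1 0) p.1.2 y)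
        + ph Q l m (update (update w p.1.1 0) p.1.2 0) + m p ((Q p.1.1).b x y) := by
  have hjk : p.1.1 ≠ p.1.2 := ne_of_lt p.2
  -- the values of `yv`
  have hk : ∀ (x' : (Q p.1.1).X) (y' : (Q p.1.2).X),
      yv Q (update (update w p.1.1 x') p.1.2 y') p.1.2 = (Q p.1.2).t + (y' : V) :=
    fun x' y' => yv_update_self Q _ p.1.2 y'
  have hj : ∀ (x' : (Q p.1.1).X) (y' : (Q p.1.2).X),
      yv Q (update (update w p.1.1 x') p.1.2 y') p.1.1 = (Q p.1.1).t + (x' : V) := by
    intro x' y'
    rw [yv_update_ne Q _ y' hjk, yv_update_self]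
  have ho : ∀ (x' : (Q p.1.1).X) (y' : (Q p.1.2).X) (i : Fin d), i ≠ p.1.1 → i ≠ p.1.2 →
      yv Q (update (update w p.1.1 x') p.1.2 y') i = yv Q w i := by
    intro x' y' i h1 h2
    rw [yv_update_ne Q _ y' h2, yv_update_ne Q _ x' h1]
  apply z2_bil
  have hsum : ∀ w' : Om Q, ph Q l m w' = ∑ k, l k ((Q k).g (yv Q w' k)) +
    ∑ q : Prs d, m q ((Q q.1.1).b (yv Q w' q.1.1) (yv Q w' q.1.2)) := fun w' => rfl
  have hA : ∀ k : Fin d,
      l k ((Q k).g (yv Q (update (update w p.1.1 x) p.1.2 y) k))
        + l k ((Q k).g (yv Q (update (update w p.1.1 x) p.1.2 0) k))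
        + l k ((Q k).g (yv Q (update (update w p.1.1 0) p.1.2 y) k))
        + l k ((Q k).g (yv Q (update (update w p.1.1 0) p.1.2 0) k)) = 0 := by
    intro k
    by_cases h1 : k = p.1.1
    · subst h1
      rw [hj, hj, hj, hj]
      exact z2_four' rfl rfl
    · have e : ∀ (x' x'' : (Q p.1.1).X) (y' : (Q p.1.2).X),
          yv Q (update (update w p.1.1 x') p.1.2 y') k
            = yv Q (update (update w p.1.1 x'') p.1.2 y') k := by
        intro x' x'' y'
        by_cases h2 : k = p.1.2
        · subst h2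
          rw [hk, hk]
        · rw [ho x' y' k h1 h2, ho x'' y' k h1 h2]
      rw [e x 0 y, e x 0 0]
      exact z2_four rfl rfl
  have hB : ∀ q : Prs d, q ≠ p →
      m q ((Q q.1.1).b (yv Q (update (update w p.1.1 x) p.1.2 y) q.1.1)
          (yv Q (update (update w p.1.1 x) p.1.2 y) q.1.2))
        + m q ((Q q.1.1).b (yv Q (update (update w p.1.1 x) p.1.2 0) q.1.1)
          (yv Q (update (update w p.1.1 x) p.1.2 0) q.1.2))
        + m q ((Q q.1.1).b (yv Q (update (update w p.1.1 0) p.1.2 y) q.1.1)
          (yv Q (update (update w p.1.1 0) p.1.2 y) q.1.2))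
        + m q ((Q q.1.1).b (yv Q (update (update w p.1.1 0) p.1.2 0) q.1.1)
          (yv Q (update (update w p.1.1 0) p.1.2 0) q.1.2)) = 0 := by
    intro q hq
    -- the coordinate `p.1.1` does not occur, or the coordinate `p.1.2` does not occur
    have ex : ∀ (x' x'' : (Q p.1.1).X) (y' : (Q p.1.2).X) (i : Fin d), i ≠ p.1.1 →
        yv Q (update (update w p.1.1 x') p.1.2 y') i
          = yv Q (update (update w p.1.1 x'') p.1.2 y') i := by
      intro x' x'' y' i h1
      by_cases h2 : i = p.1.2
      · subst h2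
        rw [hk, hk]
      · rw [ho x' y' i h1 h2, ho x'' y' i h1 h2]
    have ey : ∀ (x' : (Q p.1.1).X) (y' y'' : (Q p.1.2).X) (i : Fin d), i ≠ p.1.2 →
        yv Q (update (update w p.1.1 x') p.1.2 y') i
          = yv Q (update (update w p.1.1 x') p.1.2 y'') i := by
      intro x' y' y'' i h2
      by_cases h1 : i = p.1.1
      · subst h1
        rw [hj, hj]
      · rw [ho x' y' i h1 h2, ho x' y'' i h1 h2]
    by_cases h1 : q.1.1 ≠ p.1.1 ∧ q.1.2 ≠ p.1.1
    · rw [ex x 0 y _ h1.1, ex x 0 0 _ h1.1, ex x 0 y _ h1.2, ex x 0 0 _ h1.2]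
      exact z2_four rfl rfl
    · by_cases h2 : q.1.1 ≠ p.1.2 ∧ q.1.2 ≠ p.1.2
      · rw [ey x y 0 _ h2.1, ey 0 y 0 _ h2.1, ey x y 0 _ h2.2, ey 0 y 0 _ h2.2]
        exact z2_four' rfl rfl
      · exfalso
        apply hq
        have hqlt := q.2
        have hplt := p.2
        have a1 : q.1.1 = p.1.1 := by
          by_contra hne
          have hb : q.1.2 = p.1.1 := by
            by_contra hne2
            exact h1 ⟨hne, hne2⟩
          have hc : q.1.1 = p.1.2 := by
            by_contra hne2
            apply h2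
            refine ⟨hne2, ?_⟩
            rw [hb]
            exact hjk
          rw [hb, hc] at hqlt
          exact absurd hplt (not_lt.mpr hqlt.le)
        have a2 : q.1.2 = p.1.2 := by
          by_contra hne
          apply h2
          refine ⟨?_, hne⟩
          rw [a1]
          exact hjk
        exact Subtype.ext (Prod.ext a1 a2)
  have hC : m p ((Q p.1.1).b (yv Q (update (update w p.1.1 x) p.1.2 y) p.1.1)
          (yv Q (update (update w p.1.1 x) p.1.2 y) p.1.2))
        + m p ((Q p.1.1).b (yv Q (update (update w p.1.1 x) p.1.2 0) p.1.1)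
          (yv Q (update (update w p.1.1 x) p.1.2 0) p.1.2))
        + m p ((Q p.1.1).b (yv Q (update (update w p.1.1 0) p.1.2 y) p.1.1)
          (yv Q (update (update w p.1.1 0) p.1.2 y) p.1.2))
        + m p ((Q p.1.1).b (yv Q (update (update w p.1.1 0) p.1.2 0) p.1.1)
          (yv Q (update (update w p.1.1 0) p.1.2 0) p.1.2)) = m p ((Q p.1.1).b x y) := by
    rw [hj, hj, hj, hj, hk, hk, hk, hk]
    simp only [map_add, LinearMap.add_apply, ZeroMemClass.coe_zero, map_zero, add_zero]
    generalize m p ((Q p.1.1).b (Q p.1.1).t (Q p.1.2).t) = a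
    generalize m p ((Q p.1.1).b (Q p.1.1).t (y : V)) = b
    generalize m p ((Q p.1.1).b (x : V) (Q p.1.2).t) = c
    generalize m p ((Q p.1.1).b (x : V) (y : V)) = e
    revert a b c e
    decide
  rw [hsum, hsum, hsum, hsum]
  have hA' := Finset.sum_congr (rfl : (univ : Finset (Fin d)) = univ) (fun k _ => hA k)
  have hB' : ∑ q : Prs d, (m q ((Q q.1.1).b (yv Q (update (update w p.1.1 x) p.1.2 y) q.1.1)
          (yv Q (update (update w p.1.1 x) p.1.2 y) q.1.2))
        + m q ((Q q.1.1).b (yv Q (update (update w p.1.1 x) p.1.2 0) q.1.1)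
          (yv Q (update (update w p.1.1 x) p.1.2 0) q.1.2))
        + m q ((Q q.1.1).b (yv Q (update (update w p.1.1 0) p.1.2 y) q.1.1)
          (yv Q (update (update w p.1.1 0) p.1.2 y) q.1.2))
        + m q ((Q q.1.1).b (yv Q (update (update w p.1.1 0) p.1.2 0) q.1.1)
          (yv Q (update (update w p.1.1 0) p.1.2 0) q.1.2))) = m p ((Q p.1.1).b x y) := by
    rw [Finset.sum_eq_single p (fun q _ hq => hB q hq) (fun h => absurd (mem_univ p) h)]
    exact hC
  simp only [Finset.sum_add_distrib, Finset.sum_const_zero] at hA' hB'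
  rw [← hB']
  have hz : ∀ {a b c e a' b' c' e' : ZMod 2}, a + b + c + e = 0 →
      (a + a') + (b + b') + (c + c') + (e + e') = a' + b' + c' + e' := by
    intro a b c e a' b' c' e' h
    have : (a + a') + (b + b') + (c + c') + (e + e')
        = (a + b + c + e) + (a' + b' + c' + e') := by ring
    rw [this, h, zero_add]
  exact hz hA'

end Pool.Agent.H77.FL
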