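import Pool.Agent.H77.FL.Defs

/-!
# RegTr: from an injective map to its range (about 70 lines)

PROOF of `reg_range`. Let `e : W ≃ range f` (`LinearEquiv.ofInjective f hf`). For `l ≠ 0` the kernel of
`bl (pb b (range f).subtype) l` is the image under `e` of the kernel of `bl (pb b f) l`
(`b (e w) (e w') = b (f w) (f w')`), so the dimensions agree (`LinearEquiv.finrank_map_eq`, or two
injections), and `finrank (range f) = finrank W` (`LinearMap.finrank_range_of_inj`).

PROOF of `expect_range`. `Fintype.expect_equiv e.toEquiv`.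
-/

set_option autoImplicit false

open Finset Function Module
open scoped BigOperators
open Pool.Agent.H77.KM
open Pool.Agent.H22.QK
open Pool.Agent.H22.QF

namespace Pool.Agent.H77.FL

variable {V : Type} [AddCommGroup V] [Module (ZMod 2) V] [Fintype V]

theorem reg_range {W : Type} [AddCommGroup W] [Module (ZMod 2) W] [Fintype W]
    {Y : Type} [AddCommGroup Y] [Module (ZMod 2) Y] [Fintype Y]
    (b : V →ₗ[ZMod 2] V →ₗ[ZMod 2] Y) (f : W →ₗ[ZMod 2] V) (hf : Injective f) {s : ℕ}
    (h : Reg (pb b f) s) : Reg (pb b (LinearMap.range f).subtype) s := by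
  intro l hl
  have h1 := h l hl
  have h2 : finrank (ZMod 2) (LinearMap.range f) = finrank (ZMod 2) W :=
    LinearMap.finrank_range_of_inj hf
  have h3 : LinearMap.ker (bl (pb b (LinearMap.range f).subtype) l) ≤
      (LinearMap.ker (bl (pb b f) l)).map
        ((LinearEquiv.ofInjective f hf : W ≃ₗ[ZMod 2] LinearMap.range f) : W →ₗ[ZMod 2] LinearMap.range f) := by
    intro y hy
    obtain ⟨w, rfl⟩ := (LinearEquiv.ofInjective f hf).surjective y
    refine ⟨w, ?_, rfl⟩
    have hy' : bl (pb b (LinearMap.range f).subtype) l (LinearEquiv.ofInjective f hf w) = 0 := hy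
    change bl (pb b f) l w = 0
    ext w'
    have h4 := LinearMap.congr_fun hy' (LinearEquiv.ofInjective f hf w')
    exact h4
  have h5 := Submodule.finrank_mono h3
  rw [LinearEquiv.finrank_map_eq] at h5
  omega

theorem expect_range {W : Type} [AddCommGroup W] [Module (ZMod 2) W] [Fintype W]
    (f : W →ₗ[ZMod 2] V) (hf : Injective f) (F : V → ℝ) :
    𝔼 x : LinearMap.range f, F x = 𝔼 w, F (f w) :=
  (Fintype.expect_equiv (LinearEquiv.ofInjective f hf).toEquiv _ _ (fun _ => rfl)).symm

end Pool.Agent.H77.FL
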